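import Mathlib

set_option autoImplicit false

/-!
# Sums over levels
-/

open Finset

namespace Run7.h523.FT

theorem sum_pow_le {θ : ℝ} (hθ : 0 < θ) (hθ1 : θ ≤ 1) (m : ℕ) :
    ∑ k ∈ range m, ((k : ℝ) + 1) ^ (θ - 1) ≤ (m : ℝ) ^ θ / θ := by
  induction m with
  | zero => simp [Real.zero_rpow hθ.ne']
  | succ m ih =>
    rw [sum_range_succ]
    have hm : (0:ℝ) < (m : ℝ) + 1 := by positivity
    have h1 : (1 + (-1 / ((m : ℝ) + 1))) ^ θ ≤ 1 + θ * (-1 / ((m : ℝ) + 1)) := by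
      apply rpow_one_add_le_one_add_mul_self _ hθ.le hθ1
      rw [le_div_iff₀ hm]
      have : (0:ℝ) ≤ m := Nat.cast_nonneg _
      linarith
    have h2 : (1 + (-1 / ((m : ℝ) + 1))) = m / (m + 1) := by field_simp; ring
    rw [h2, Real.div_rpow (by positivity) (by positivity), div_le_iff₀ (by positivity)] at h1
    have h3 : ((m : ℝ) + 1) ^ (θ - 1) = ((m : ℝ) + 1) ^ θ / (m + 1) := by
      rw [Real.rpow_sub hm, Real.rpow_one]
    have h4 : (1 + θ * (-1 / ((m : ℝ) + 1))) * ((m : ℝ) + 1) ^ θ =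
        ((m : ℝ) + 1) ^ θ - θ * (((m : ℝ) + 1) ^ θ / (m + 1)) := by
      field_simp
      ring
    rw [h4, ← h3] at h1
    push_cast
    rw [le_div_iff₀ hθ, add_mul]
    rw [le_div_iff₀ hθ] at ih
    nlinarith

theorem class_sum₀ {κ : Type*} (L : Finset κ) (k : κ → ℕ) (hk : Set.InjOn k L) (n : κ → ℝ)
    (hn : ∀ l ∈ L, 0 ≤ n l) {N Q θ : ℝ} (hθ : 0 < θ) (hθ1 : θ ≤ 1) (hQ : 0 < Q) (hN : 0 < N)
    (hsum : ∑ l ∈ L, n l ≤ N) :
    ∑ l ∈ L, min (n l) Q * ((k l : ℝ) + 1) ^ (θ - 1) ≤ (1 / θ + 1) * (Q ^ (1 - θ) * N ^ θ) := by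
  classical
  set M := N / Q with hM
  have hM0 : 0 < M := by positivity
  rw [← sum_filter_add_sum_filter_not L (fun l => (k l : ℝ) + 1 ≤ M)]
  have h1 : ∑ l ∈ L with (k l : ℝ) + 1 ≤ M, min (n l) Q * ((k l : ℝ) + 1) ^ (θ - 1) ≤
      Q * (M ^ θ / θ) := by
    calc ∑ l ∈ L with (k l : ℝ) + 1 ≤ M, min (n l) Q * ((k l : ℝ) + 1) ^ (θ - 1)
        ≤ ∑ l ∈ L with (k l : ℝ) + 1 ≤ M, Q * ((k l : ℝ) + 1) ^ (θ - 1) := by
          refine sum_le_sum fun l _ => ?_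
          gcongr
          exact min_le_right _ _
      _ = Q * ∑ j ∈ (L.filter (fun l => (k l : ℝ) + 1 ≤ M)).image k, ((j : ℝ) + 1) ^ (θ - 1) := by
          rw [← mul_sum, sum_image]
          intro x hx y hy h
          exact hk (mem_coe.2 (mem_filter.1 hx).1) (mem_coe.2 (mem_filter.1 hy).1) h
      _ ≤ Q * ∑ j ∈ range ⌊M⌋₊, ((j : ℝ) + 1) ^ (θ - 1) := by
          apply mul_le_mul_of_nonneg_left _ hQ.le
          refine sum_le_sum_of_subset_of_nonneg ?_ fun i _ _ => by positivity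
          intro j hj
          obtain ⟨l, hl, rfl⟩ := mem_image.1 hj
          rw [mem_range]
          have h2 := (mem_filter.1 hl).2
          have h3 : k l + 1 ≤ ⌊M⌋₊ := Nat.le_floor (by push_cast; exact h2)
          omega
      _ ≤ Q * ((⌊M⌋₊ : ℝ) ^ θ / θ) := by
          apply mul_le_mul_of_nonneg_left (sum_pow_le hθ hθ1 _) hQ.le
      _ ≤ _ := by
          gcongr
          exact Nat.floor_le hM0.le
  have h2 : ∑ l ∈ L with ¬ (k l : ℝ) + 1 ≤ M, min (n l) Q * ((k l : ℝ) + 1) ^ (θ - 1) ≤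
      N * M ^ (θ - 1) := by
    calc ∑ l ∈ L with ¬ (k l : ℝ) + 1 ≤ M, min (n l) Q * ((k l : ℝ) + 1) ^ (θ - 1)
        ≤ ∑ l ∈ L with ¬ (k l : ℝ) + 1 ≤ M, n l * M ^ (θ - 1) := by
          refine sum_le_sum fun l hl => ?_
          have h3 := (mem_filter.1 hl).2
          have h4 : ((k l : ℝ) + 1) ^ (θ - 1) ≤ M ^ (θ - 1) :=
            Real.rpow_le_rpow_of_nonpos hM0 (not_le.1 h3).le (by linarith)
          have h5 := hn l (mem_filter.1 hl).1
          calc min (n l) Q * ((k l : ℝ) + 1) ^ (θ - 1) ≤ n l * ((k l : ℝ) + 1) ^ (θ - 1) := by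
                gcongr
                exact min_le_left _ _
            _ ≤ _ := by gcongr
      _ = (∑ l ∈ L with ¬ (k l : ℝ) + 1 ≤ M, n l) * M ^ (θ - 1) := by rw [sum_mul]
      _ ≤ (∑ l ∈ L, n l) * M ^ (θ - 1) := by
          gcongr
          · exact fun i hi _ => hn i hi
          · exact filter_subset _ _
      _ ≤ _ := by gcongr
  have h3 : Q * M ^ θ = Q ^ (1 - θ) * N ^ θ := by
    rw [hM, Real.div_rpow hN.le hQ.le, Real.rpow_sub hQ, Real.rpow_one]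
    field_simp
  have h4 : N * M ^ (θ - 1) = Q ^ (1 - θ) * N ^ θ := by
    rw [← h3, Real.rpow_sub hM0, Real.rpow_one, hM]
    field_simp
  calc _ ≤ Q * (M ^ θ / θ) + N * M ^ (θ - 1) := add_le_add h1 h2
    _ = (1 / θ + 1) * (Q ^ (1 - θ) * N ^ θ) := by
      rw [h4, ← mul_div_assoc, h3]
      ring

theorem min_le_geom {a b θ : ℝ} (ha : 0 ≤ a) (hb : 0 < b) (hθ : 0 < θ) (hθ1 : θ ≤ 1) :
    min a b ≤ a ^ θ * b ^ (1 - θ) := by
  rcases ha.eq_or_lt with h | h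
  · rw [← h]
    rw [min_eq_left hb.le, Real.zero_rpow hθ.ne', zero_mul]
  · have hm : 0 < min a b := lt_min h hb
    calc min a b = (min a b) ^ θ * (min a b) ^ (1 - θ) := by
          rw [← Real.rpow_add hm]; simp
      _ ≤ _ := by
          have h1 : (min a b) ^ θ ≤ a ^ θ := Real.rpow_le_rpow hm.le (min_le_left _ _) hθ.le
          have h2 : (min a b) ^ (1 - θ) ≤ b ^ (1 - θ) :=
            Real.rpow_le_rpow hm.le (min_le_right _ _) (by linarith)
          gcongr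

/-- The sum over the levels. -/
theorem class_sum {κ : Type*} (L : Finset κ) (k : κ → ℕ) (hk : Set.InjOn k L) (n : κ → ℝ)
    (hn : ∀ l ∈ L, 0 ≤ n l) {N Q θ h : ℝ} (hθ : 0 < θ) (hθ1 : θ ≤ 1) (hQ : 0 < Q) (hN : 0 < N)
    (hh : 0 ≤ h) (hsum : ∑ l ∈ L, n l ≤ N) :
    ∑ l ∈ L, min (n l) Q * min h (1 / ((k l : ℝ) + 1)) ≤
      (1 / θ + 1) * (Q ^ (1 - θ) * N ^ θ * h ^ θ) := by
  calc ∑ l ∈ L, min (n l) Q * min h (1 / ((k l : ℝ) + 1))
      ≤ ∑ l ∈ L, min (n l) Q * ((k l : ℝ) + 1) ^ (θ - 1) * h ^ θ := by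
        refine sum_le_sum fun l hl => ?_
        rw [mul_assoc]
        apply mul_le_mul_of_nonneg_left _ (le_min (hn l hl) hQ.le)
        refine (min_le_geom hh (by positivity) hθ hθ1).trans_eq ?_
        rw [one_div, Real.inv_rpow (by positivity), ← Real.rpow_neg (by positivity), mul_comm]
        congr 2
        ring
    _ = (∑ l ∈ L, min (n l) Q * ((k l : ℝ) + 1) ^ (θ - 1)) * h ^ θ := by rw [sum_mul]
    _ ≤ (1 / θ + 1) * (Q ^ (1 - θ) * N ^ θ) * h ^ θ := by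
        gcongr
        exact class_sum₀ L k hk n hn hθ hθ1 hQ hN hsum
    _ = _ := by ring

end Run7.h523.FT
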