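import Mathlib
import Pool.Agent.Run7.h523.WF.Euclid

set_option autoImplicit false

/-!
# Separated points of a small piece of a sphere of codimension two
-/

open Set Metric
open scoped InnerProductSpace

namespace Run7.h523.FT

/-- Euclidean space `ℝ^n`. -/
abbrev E (n : ℕ) : Type := EuclideanSpace ℝ (Fin n)

theorem chart_sep {d : ℕ} {v v' : E (d + 1)} {k : Fin (d + 1)} {ρ2 η : ℝ} (hk : k ≠ 0)
    (h0 : v 0 = v' 0) (hv : ∑ l ∈ Finset.univ.erase 0, v l ^ 2 = ρ2)
    (hv' : ∑ l ∈ Finset.univ.erase 0, v' l ^ 2 = ρ2) (hk1 : ρ2 ≤ d * v k ^ 2)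
    (hk2 : ρ2 ≤ d * v' k ^ 2) (hs : 0 ≤ v k * v' k)
    (hη : ∀ l, l ≠ 0 → l ≠ k → |v l - v' l| ≤ η) :
    ‖v - v'‖ ^ 2 ≤ (2 * d + 1) * (d * η ^ 2) := by
  classical
  have hkm : k ∈ Finset.univ.erase (0 : Fin (d + 1)) := Finset.mem_erase.2 ⟨hk, Finset.mem_univ _⟩
  set P : Finset (Fin (d + 1)) := (Finset.univ.erase 0).erase k with hP
  have hsplit : ∀ f : Fin (d + 1) → ℝ, ∑ l ∈ Finset.univ.erase 0, f l = f k + ∑ l ∈ P, f l := by
    intro f
    rw [hP, Finset.add_sum_erase _ _ hkm]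
  have hsplit0 : ∀ f : Fin (d + 1) → ℝ, ∑ l, f l = f 0 + (f k + ∑ l ∈ P, f l) := by
    intro f
    rw [← hsplit, Finset.add_sum_erase _ _ (Finset.mem_univ _)]
  have hPcard : (P.card : ℝ) ≤ d := by
    have : P.card = d - 1 := by
      rw [hP, Finset.card_erase_of_mem hkm, Finset.card_erase_of_mem (Finset.mem_univ _),
        Finset.card_univ, Fintype.card_fin]
      omega
    rw [this]
    exact_mod_cast Nat.sub_le _ _
  set S := ∑ l ∈ P, (v l - v' l) ^ 2 with hS
  have hS1 : S ≤ d * η ^ 2 := by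
    calc S ≤ ∑ l ∈ P, η ^ 2 := by
          refine Finset.sum_le_sum fun l hl => ?_
          rw [hP, Finset.mem_erase, Finset.mem_erase] at hl
          rw [← sq_abs]
          exact pow_le_pow_left₀ (abs_nonneg _) (hη l hl.2.1 hl.1) 2
      _ = P.card * η ^ 2 := by rw [Finset.sum_const, nsmul_eq_mul]
      _ ≤ _ := by gcongr
  have hS0 : 0 ≤ S := Finset.sum_nonneg fun l _ => sq_nonneg _
  have hn : ‖v - v'‖ ^ 2 = (v k - v' k) ^ 2 + S := by
    rw [EuclideanSpace.norm_sq_eq]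
    have : ∀ i, ‖(v - v') i‖ ^ 2 = (v i - v' i) ^ 2 := by
      intro i
      rw [Real.norm_eq_abs, sq_abs]
      rfl
    simp_rw [this]
    rw [hsplit0, h0]
    ring
  rw [hsplit] at hv hv'
  have hvP : 0 ≤ ∑ l ∈ P, v l ^ 2 := Finset.sum_nonneg fun l _ => sq_nonneg _
  have hvP' : 0 ≤ ∑ l ∈ P, v' l ^ 2 := Finset.sum_nonneg fun l _ => sq_nonneg _
  set T := ∑ l ∈ P, (v l + v' l) ^ 2 with hT
  have hT1 : T ≤ 4 * ρ2 := by
    have h1 : T ≤ ∑ l ∈ P, (2 * v l ^ 2 + 2 * v' l ^ 2) := by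
      refine Finset.sum_le_sum fun l _ => ?_
      nlinarith [sq_nonneg (v l - v' l)]
    rw [Finset.sum_add_distrib, ← Finset.mul_sum, ← Finset.mul_sum] at h1
    nlinarith [sq_nonneg (v k), sq_nonneg (v' k)]
  have hcs : ((v k - v' k) * (v k + v' k)) ^ 2 ≤ S * T := by
    have h1 : (v k - v' k) * (v k + v' k) = - ∑ l ∈ P, (v l - v' l) * (v l + v' l) := by
      have h2 : ∑ l ∈ P, (v l - v' l) * (v l + v' l) = ∑ l ∈ P, v l ^ 2 - ∑ l ∈ P, v' l ^ 2 := by
        rw [← Finset.sum_sub_distrib]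
        refine Finset.sum_congr rfl fun l _ => ?_
        ring
      rw [h2]
      linarith
    rw [h1, neg_sq]
    exact Finset.sum_mul_sq_le_sq_mul_sq _ _ _
  have hρ0 : 0 ≤ ρ2 := by nlinarith [sq_nonneg (v k)]
  rcases hρ0.eq_or_lt with h | h
  · -- degenerate case
    have e1 : v k = 0 := by nlinarith [sq_nonneg (v k)]
    have e2 : v' k = 0 := by nlinarith [sq_nonneg (v' k)]
    rw [hn, e1, e2]
    have : (0:ℝ) ≤ d := Nat.cast_nonneg _
    nlinarith [sq_nonneg η, mul_nonneg this (sq_nonneg η)]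
  · have h3 : (v k + v' k) ^ 2 * d ≥ 2 * ρ2 := by nlinarith
    have h4 : (v k - v' k) ^ 2 * (2 * ρ2) ≤ 2 * d * S * (2 * ρ2) := by
      have h5 : (v k - v' k) ^ 2 * (2 * ρ2) ≤ (v k - v' k) ^ 2 * ((v k + v' k) ^ 2 * d) :=
        mul_le_mul_of_nonneg_left h3 (sq_nonneg _)
      have h6 : (v k - v' k) ^ 2 * ((v k + v' k) ^ 2 * d) = ((v k - v' k) * (v k + v' k)) ^ 2 * d := by
        ring
      have h7 : (0:ℝ) ≤ d := Nat.cast_nonneg _
      have h8 : ((v k - v' k) * (v k + v' k)) ^ 2 * d ≤ S * T * d := mul_le_mul_of_nonneg_right hcs h7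
      have h9 : S * T * d ≤ S * (4 * ρ2) * d := by gcongr
      nlinarith
    have h5 : (v k - v' k) ^ 2 ≤ 2 * d * S := le_of_mul_le_mul_right h4 (by linarith)
    rw [hn]
    have h7 : (0:ℝ) ≤ d := Nat.cast_nonneg _
    nlinarith

theorem count_coord {d : ℕ} (hd : 1 ≤ d) (V : Finset (E (d + 1))) {δ R c : ℝ} (hδ : 0 < δ)
    (hδR : δ ≤ R) (hV : ∀ v ∈ V, ‖v‖ = 1 ∧ v 0 = c)
    (hsep : ∀ v ∈ V, ∀ v' ∈ V, v ≠ v' → δ ≤ ‖v - v'‖) (hR : ∀ v ∈ V, ∀ v' ∈ V, ‖v - v'‖ ≤ R) :
    (V.card : ℝ) ≤ 2 * (d + 1) * ((4 * d + 6) * (R / δ)) ^ (d - 1) := by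
  classical
  have hR0 : 0 < R := hδ.trans_le hδR
  have hsum : ∀ v ∈ V, ∑ l ∈ Finset.univ.erase 0, v l ^ 2 = 1 - c ^ 2 := by
    intro v hv
    have h1 := EuclideanSpace.norm_sq_eq v
    rw [(hV v hv).1] at h1
    have h2 : ∑ i, ‖v i‖ ^ 2 = v 0 ^ 2 + ∑ l ∈ Finset.univ.erase 0, v l ^ 2 := by
      rw [Finset.add_sum_erase _ (fun l => v l ^ 2) (Finset.mem_univ _)]
      refine Finset.sum_congr rfl fun i _ => ?_
      rw [Real.norm_eq_abs, sq_abs]
    rw [h2, (hV v hv).2] at h1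
    linarith
  have hchart : ∀ v : E (d + 1), ∃ k : Fin (d + 1), v ∈ V → k ≠ 0 ∧ 1 - c ^ 2 ≤ d * v k ^ 2 := by
    intro v
    by_cases hv : v ∈ V
    · by_contra hcon
      push Not at hcon
      have h1 : ∀ k ∈ Finset.univ.erase (0 : Fin (d + 1)), d * v k ^ 2 < 1 - c ^ 2 := by
        intro k hk
        exact (hcon k).2 (Finset.ne_of_mem_erase hk)
      have hne : (Finset.univ.erase (0 : Fin (d + 1))).Nonempty := by
        refine ⟨Fin.last d, Finset.mem_erase.2 ⟨?_, Finset.mem_univ _⟩⟩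
        intro h
        have := congrArg Fin.val h
        simp at this
        omega
      have h2 := Finset.sum_lt_sum_of_nonempty hne h1
      rw [← Finset.mul_sum, hsum v hv, Finset.sum_const, Finset.card_erase_of_mem (Finset.mem_univ _),
        Finset.card_univ, Fintype.card_fin, nsmul_eq_mul, Nat.add_sub_cancel] at h2
      exact lt_irrefl _ h2
    · exact ⟨0, fun h => absurd h hv⟩
  choose χ hχ using hchart
  set N₀ : ℕ := ⌊4 * R * (d + 1) / δ⌋₊ + 2 with hN₀
  set η : ℝ := δ / (2 * (d + 1)) with hη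
  have hη0 : 0 < η := by positivity
  have hfib : ∀ q ∈ V.image (fun v => (χ v, decide (0 ≤ v (χ v)))),
      (V.filter (fun v => (χ v, decide (0 ≤ v (χ v))) = q)).card ≤ N₀ ^ (d - 1) := by
    rintro ⟨k, b⟩ hq
    obtain ⟨w, hw, hwq⟩ := Finset.mem_image.1 hq
    have hwk : χ w = k := congrArg Prod.fst hwq
    have hk0 : k ≠ 0 := hwk ▸ (hχ w hw).1
    set A := V.filter (fun v => (χ v, decide (0 ≤ v (χ v))) = (k, b)) with hA
    set box : Finset (Fin (d + 1) → ℤ) := Fintype.piFinset (fun l =>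
      if l = 0 ∨ l = k then {0} else Finset.Icc ⌊(w l - R) / η⌋ ⌊(w l + R) / η⌋) with hbox
    have hboxcard : box.card ≤ N₀ ^ (d - 1) := by
      rw [hbox, Fintype.card_piFinset]
      have h1 : ∀ l : Fin (d + 1), (if l = 0 ∨ l = k then ({0} : Finset ℤ) else
          Finset.Icc ⌊(w l - R) / η⌋ ⌊(w l + R) / η⌋).card ≤ if l = 0 ∨ l = k then 1 else N₀ := by
        intro l
        split_ifs
        · simp
        · rw [Int.card_Icc]
          have h2 : ((⌊(w l + R) / η⌋ + 1 - ⌊(w l - R) / η⌋ : ℤ) : ℝ) ≤ 4 * R * (d + 1) / δ + 2 := by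
            have h3 := Int.floor_le ((w l + R) / η)
            have h4 := Int.lt_floor_add_one ((w l - R) / η)
            have h5 : (w l + R) / η - (w l - R) / η = 4 * R * (d + 1) / δ := by
              rw [hη]; field_simp; ring
            push_cast
            linarith
          have h6 : (0:ℝ) ≤ 4 * R * (d + 1) / δ := by positivity
          rw [hN₀, Int.toNat_le]
          have h7 : ((⌊(w l + R) / η⌋ + 1 - ⌊(w l - R) / η⌋ : ℤ)) ≤ ⌊4 * R * (d + 1) / δ⌋ + 2 := by
            have h8 : ((⌊(w l + R) / η⌋ + 1 - ⌊(w l - R) / η⌋ - 2 : ℤ) : ℝ) ≤ 4 * R * (d + 1) / δ := by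
              push_cast at h2 ⊢
              linarith
            have := Int.le_floor.2 h8
            linarith
          have h9 : ((⌊4 * R * (d + 1) / δ⌋₊ : ℕ) : ℤ) = ⌊4 * R * (d + 1) / δ⌋ :=
            Int.natCast_floor_eq_floor h6
          push_cast
          rw [h9]
          exact h7
      refine (Finset.prod_le_prod' fun l _ => h1 l).trans ?_
      rw [Finset.prod_ite, Finset.prod_const_one, one_mul, Finset.prod_const]
      apply Nat.pow_le_pow_right (by omega)
      have h2 : (Finset.univ.filter (fun l : Fin (d + 1) => ¬ (l = 0 ∨ l = k))) =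
          (Finset.univ.erase 0).erase k := by
        ext l
        simp only [Finset.mem_filter, Finset.mem_univ, true_and, Finset.mem_erase]
        tauto
      rw [h2, Finset.card_erase_of_mem (Finset.mem_erase.2 ⟨hk0, Finset.mem_univ _⟩),
        Finset.card_erase_of_mem (Finset.mem_univ _), Finset.card_univ, Fintype.card_fin]
      omega
    refine le_trans ?_ hboxcard
    refine Finset.card_le_card_of_injOn (fun v l => if l = 0 ∨ l = k then 0 else ⌊v l / η⌋) ?_ ?_
    · intro v hv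
      have hvV : v ∈ V := (Finset.mem_filter.1 hv).1
      rw [Finset.mem_coe, hbox, Fintype.mem_piFinset]
      intro l
      by_cases hl : l = 0 ∨ l = k
      · simp [hl]
      · simp only [hl, if_false, Finset.mem_Icc]
        have h1 : |v l - w l| ≤ R := by
          have h2 := hR v hvV w hw
          refine le_trans ?_ h2
          have h3 := EuclideanSpace.norm_sq_eq (v - w)
          have h4 : ‖(v - w) l‖ ^ 2 ≤ ∑ i, ‖(v - w) i‖ ^ 2 :=
            Finset.single_le_sum (f := fun i => ‖(v - w) i‖ ^ 2) (fun i _ => sq_nonneg _)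
              (Finset.mem_univ l)
          rw [← h3] at h4
          exact (pow_le_pow_iff_left₀ (norm_nonneg _) (norm_nonneg _) two_ne_zero).1 h4
        rw [abs_le] at h1
        constructor
        · apply Int.floor_le_floor
          gcongr
          linarith
        · apply Int.floor_le_floor
          gcongr
          linarith
    · intro v hv v' hv' hvv'
      have hvV : v ∈ V := (Finset.mem_filter.1 hv).1
      have hvV' : v' ∈ V := (Finset.mem_filter.1 hv').1
      have hvq := (Finset.mem_filter.1 hv).2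
      have hvq' := (Finset.mem_filter.1 hv').2
      have hk1 : χ v = k := congrArg Prod.fst hvq
      have hk2 : χ v' = k := congrArg Prod.fst hvq'
      have hb1 : decide (0 ≤ v (χ v)) = b := congrArg Prod.snd hvq
      have hb2 : decide (0 ≤ v' (χ v')) = b := congrArg Prod.snd hvq'
      rw [hk1] at hb1
      rw [hk2] at hb2
      have hs : 0 ≤ v k * v' k := by
        by_cases h : 0 ≤ v k
        · have h' : 0 ≤ v' k := by
            have : decide (0 ≤ v' k) = decide (0 ≤ v k) := by rw [hb1, hb2]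
            simpa [h] using this
          positivity
        · have h' : ¬ 0 ≤ v' k := by
            have : decide (0 ≤ v' k) = decide (0 ≤ v k) := by rw [hb1, hb2]
            simpa [h] using this
          exact mul_nonneg_of_nonpos_of_nonpos (not_le.1 h).le (not_le.1 h').le
      by_contra hne
      have h1 := hsep v hvV v' hvV' hne
      have h2 : ‖v - v'‖ ^ 2 ≤ (2 * d + 1) * (d * η ^ 2) := by
        refine chart_sep hk0 ?_ (hsum v hvV) (hsum v' hvV') ?_ ?_ hs ?_
        · rw [(hV v hvV).2, (hV v' hvV').2]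
        · have := (hχ v hvV).2; rwa [hk1] at this
        · have := (hχ v' hvV').2; rwa [hk2] at this
        · intro l hl0 hlk
          have h3 := congrFun hvv' l
          have h4 : ¬ (l = 0 ∨ l = k) := by tauto
          simp only [h4, if_false] at h3
          have h5 := Int.abs_sub_lt_one_of_floor_eq_floor h3
          have h6 : v l / η - v' l / η = (v l - v' l) / η := by ring
          rw [h6, abs_div, abs_of_pos hη0, div_lt_one hη0] at h5
          exact h5.le
      have h3 : δ ^ 2 ≤ (2 * d + 1) * (d * η ^ 2) := (pow_le_pow_left₀ hδ.le h1 2).trans h2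
      rw [hη, div_pow, mul_pow] at h3
      have h4 : (2 * (d:ℝ) + 1) * (d * (δ ^ 2 / (2 ^ 2 * ((d:ℝ) + 1) ^ 2))) =
          δ ^ 2 * (((2 * (d:ℝ) + 1) * d) / (4 * ((d:ℝ) + 1) ^ 2)) := by
        field_simp
        ring
      rw [h4] at h3
      have h5 : ((2 * (d:ℝ) + 1) * d) / (4 * ((d:ℝ) + 1) ^ 2) < 1 := by
        rw [div_lt_one (by positivity)]
        have : (0:ℝ) ≤ d := Nat.cast_nonneg _
        nlinarith
      have h6 : δ ^ 2 * (((2 * (d:ℝ) + 1) * d) / (4 * ((d:ℝ) + 1) ^ 2)) < δ ^ 2 * 1 :=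
        mul_lt_mul_of_pos_left h5 (by positivity)
      linarith
  have hcard := Finset.card_le_mul_card_image (f := fun v => (χ v, decide (0 ≤ v (χ v)))) V _ hfib
  have himg : (V.image (fun v => (χ v, decide (0 ≤ v (χ v))))).card ≤ 2 * (d + 1) := by
    refine (Finset.card_le_univ _).trans ?_
    rw [Fintype.card_prod, Fintype.card_fin, Fintype.card_bool]
    omega
  have h1 : V.card ≤ N₀ ^ (d - 1) * (2 * (d + 1)) := hcard.trans (Nat.mul_le_mul_left _ himg)
  have h2 : (V.card : ℝ) ≤ (N₀ : ℝ) ^ (d - 1) * (2 * (d + 1)) := by exact_mod_cast h1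
  refine h2.trans ?_
  rw [mul_comm]
  gcongr
  have h6 : (0:ℝ) ≤ 4 * R * (d + 1) / δ := by positivity
  have h7 := Nat.floor_le h6
  rw [hN₀]
  push_cast
  have h8 : (1:ℝ) ≤ R / δ := by rw [le_div_iff₀ hδ]; linarith
  have h9 : 4 * R * (d + 1) / δ = 4 * (d + 1) * (R / δ) := by ring
  have h10 : (⌊4 * R * (d + 1) / δ⌋₊ : ℝ) ≤ 4 * (d + 1) * (R / δ) := h7.trans_eq h9
  linarith

/-- Points of the unit sphere with the same inner product with `u` which are `δ`-separated and within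
`R` of each other: there are at most `C (R / δ)^(n - 2)` of them in `ℝ^n`. -/
theorem count_level {d : ℕ} (hd : 1 ≤ d) {u : E (d + 1)} (hu : ‖u‖ = 1) {ι : Type*} (A : Finset ι)
    (e : ι → E (d + 1)) {δ R c : ℝ} (hδ : 0 < δ) (hδR : δ ≤ R)
    (hV : ∀ i ∈ A, ‖e i‖ = 1 ∧ ⟪u, e i⟫_ℝ = c)
    (hsep : ∀ i ∈ A, ∀ j ∈ A, i ≠ j → δ ≤ ‖e i - e j‖) (hR : ∀ i ∈ A, ∀ j ∈ A, ‖e i - e j‖ ≤ R) :
    (A.card : ℝ) ≤ 2 * (d + 1) * ((4 * d + 6) * (R / δ)) ^ (d - 1) := by
  classical
  obtain ⟨L, hL⟩ := Run7.h523.WF.exists_rot u hu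
  have hinj : Set.InjOn (fun i => L (e i)) A := by
    intro i hi j hj h
    by_contra hne
    have h1 := hsep i hi j hj hne
    have h2 : e i = e j := L.injective h
    rw [h2, sub_self, norm_zero] at h1
    linarith
  rw [← Finset.card_image_of_injOn hinj]
  refine count_coord hd _ hδ hδR (c := c) ?_ ?_ ?_
  · intro v hv
    obtain ⟨i, hi, rfl⟩ := Finset.mem_image.1 hv
    refine ⟨(LinearIsometryEquiv.norm_map _ _).trans (hV i hi).1, ?_⟩
    have h1 : ⟪L u, L (e i)⟫_ℝ = c := by rw [LinearIsometryEquiv.inner_map_map]; exact (hV i hi).2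
    rw [hL] at h1
    have h2 : L (e i) = Pool.Agent.H742R2.Kk.ins (L (e i) 0) (Pool.Agent.H742R2.Kk.tl (L (e i))) := by
      ext l
      refine Fin.cases ?_ (fun l => ?_) l
      · rfl
      · rfl
    rw [h2, Pool.Agent.H742R2.Kk.inner_ins, inner_zero_left] at h1
    linarith
  · intro v hv v' hv' hne
    obtain ⟨i, hi, rfl⟩ := Finset.mem_image.1 hv
    obtain ⟨j, hj, rfl⟩ := Finset.mem_image.1 hv'
    have h3 : ‖L (e i) - L (e j)‖ = ‖e i - e j‖ := by
      rw [← map_sub, LinearIsometryEquiv.norm_map]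
    exact h3.symm ▸ hsep i hi j hj fun h => hne (by rw [h])
  · intro v hv v' hv'
    obtain ⟨i, hi, rfl⟩ := Finset.mem_image.1 hv
    obtain ⟨j, hj, rfl⟩ := Finset.mem_image.1 hv'
    have h3 : ‖L (e i) - L (e j)‖ = ‖e i - e j‖ := by
      rw [← map_sub, LinearIsometryEquiv.norm_map]
    exact h3.symm ▸ hR i hi j hj

end Run7.h523.FT
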