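import Mathlib

set_option autoImplicit false

/-!
# Fronts: the two geometric facts
-/

open Set Metric
open scoped InnerProductSpace

namespace Run7.h523.FT

variable {F : Type*} [NormedAddCommGroup F] [InnerProductSpace ℝ F]

/-- Two segments of equal angle with the axis which are outside of the double cones of each other
separate linearly. -/
theorem sep_of_front {u e e' w : F} {c h : ℝ} (hc : 0 < c) (he : ‖e‖ = 1) (he' : ‖e'‖ = 1)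
    (hu : ⟪u, e⟫_ℝ = c) (hu' : ⟪u, e'⟫_ℝ = c) (hh : 0 ≤ h)
    (H : ∀ s s' : ℝ, |s| ≤ h → |s'| ≤ h → |⟪u, w + s • e - s' • e'⟫_ℝ| ≤ c * ‖w + s • e - s' • e'‖) :
    h * ‖e - e'‖ ≤ 2 * ‖w‖ := by
  set x := ⟪u, w⟫_ℝ with hx
  have key : ∀ s s' : ℝ, |s| ≤ h → |s'| ≤ h →
      0 ≤ (c ^ 2 * ‖w‖ ^ 2 - x ^ 2) + 2 * s * c * (c * ⟪w, e⟫_ℝ - x) - 2 * s' * c * (c * ⟪w, e'⟫_ℝ - x) +
        s * s' * (c ^ 2 * ‖e - e'‖ ^ 2) := by
    intro s s' hs hs'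
    have h1 := H s s' hs hs'
    have h2 : ⟪u, w + s • e - s' • e'⟫_ℝ = x + (s - s') * c := by
      rw [inner_sub_right, inner_add_right, inner_smul_right, inner_smul_right, hu, hu']
      ring
    have h3 : ‖w + s • e - s' • e'‖ ^ 2 = ‖w‖ ^ 2 + 2 * s * ⟪w, e⟫_ℝ - 2 * s' * ⟪w, e'⟫_ℝ +
        (s - s') ^ 2 + s * s' * ‖e - e'‖ ^ 2 := by
      rw [@norm_sub_sq_real, @norm_add_sq_real, @norm_sub_sq_real, inner_add_left, norm_smul,
        norm_smul, he, he', inner_smul_right, inner_smul_right, inner_smul_left,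
        inner_smul_right]
      simp only [Real.norm_eq_abs, mul_one, sq_abs, conj_trivial]
      ring
    rw [h2] at h1
    have h4 : (x + (s - s') * c) ^ 2 ≤ c ^ 2 * ‖w + s • e - s' • e'‖ ^ 2 := by
      rw [← sq_abs (x + _), ← mul_pow]
      exact pow_le_pow_left₀ (abs_nonneg _) h1 2
    rw [h3] at h4
    nlinarith
  have k1 := key (-h) 0 (by rw [abs_neg, abs_of_nonneg hh]) (by simpa using hh)
  have k2 := key 0 h (by simpa using hh) (by rw [abs_of_nonneg hh])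
  have k3 := key h (-h) (by rw [abs_of_nonneg hh]) (by rw [abs_neg, abs_of_nonneg hh])
  have h5 : c ^ 2 * (h ^ 2 * ‖e - e'‖ ^ 2) ≤ c ^ 2 * (3 * ‖w‖ ^ 2) := by
    nlinarith [sq_nonneg x]
  have h6 : h ^ 2 * ‖e - e'‖ ^ 2 ≤ 3 * ‖w‖ ^ 2 := le_of_mul_le_mul_left h5 (by positivity)
  refine abs_le_of_sq_le_sq' ?_ (by positivity) |>.2
  nlinarith [sq_nonneg ‖w‖]

/-- The part of a vector orthogonal to the unit vector `u`. -/
theorem norm_hor_sq {u z : F} (hu : ‖u‖ = 1) : ‖z - ⟪u, z⟫_ℝ • u‖ ^ 2 = ‖z‖ ^ 2 - ⟪u, z⟫_ℝ ^ 2 := by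
  rw [@norm_sub_sq_real, norm_smul, hu, inner_smul_right, real_inner_comm]
  simp only [Real.norm_eq_abs, mul_one, sq_abs]
  ring

/-- A vector near a steep one is inside the double cone. -/
theorem transv {u e z : F} {s η φ : ℝ} (hu : ‖u‖ = 1) (he : ‖e‖ = 1)
    (h1 : InnerProductGeometry.angle u e ≤ φ) (h2 : φ ≤ Real.pi / 2)
    (hz : |⟪u, z⟫_ℝ| ≤ Real.cos φ * ‖z‖) (hs : ‖z - s • e‖ ≤ η) :
    |s| * Real.sin (φ - InnerProductGeometry.angle u e) ≤ η := by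
  set φ₀ := InnerProductGeometry.angle u e with hφ₀
  have h0 : 0 ≤ φ₀ := InnerProductGeometry.angle_nonneg _ _
  have hcos : Real.cos φ₀ = ⟪u, e⟫_ℝ := by
    rw [hφ₀, InnerProductGeometry.cos_angle, hu, he]
    simp
  have hsφ : 0 ≤ Real.sin φ := Real.sin_nonneg_of_nonneg_of_le_pi (h0.trans h1) (by linarith [Real.pi_pos])
  have hcφ : 0 ≤ Real.cos φ := Real.cos_nonneg_of_neg_pi_div_two_le_of_le (by linarith [Real.pi_pos]) h2
  have hsφ₀ : 0 ≤ Real.sin φ₀ := Real.sin_nonneg_of_nonneg_of_le_pi h0 (by linarith [Real.pi_pos])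
  have hcφ₀ : 0 ≤ Real.cos φ₀ := Real.cos_nonneg_of_neg_pi_div_two_le_of_le (by linarith [Real.pi_pos])
    (h1.trans h2)
  have hsin : ‖e - ⟪u, e⟫_ℝ • u‖ = Real.sin φ₀ := by
    have h3 := norm_hor_sq (z := e) hu
    rw [he, ← hcos] at h3
    have h4 : ‖e - Real.cos φ₀ • u‖ ^ 2 = Real.sin φ₀ ^ 2 := by
      rw [h3, Real.sin_sq]; ring
    rw [← hcos]
    exact (pow_left_inj₀ (norm_nonneg _) hsφ₀ two_ne_zero).1 h4
  -- `z` is outside of the cone of angle `φ`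
  have hz' : Real.sin φ * |⟪u, z⟫_ℝ| ≤ Real.cos φ * ‖z - ⟪u, z⟫_ℝ • u‖ := by
    have h3 := norm_hor_sq (z := z) hu
    have h4 : ⟪u, z⟫_ℝ ^ 2 ≤ Real.cos φ ^ 2 * ‖z‖ ^ 2 := by
      rw [← sq_abs, ← mul_pow]
      exact pow_le_pow_left₀ (abs_nonneg _) hz 2
    refine abs_le_of_sq_le_sq' ?_ (by positivity) |>.2
    rw [mul_pow, mul_pow, sq_abs, h3, Real.sin_sq]
    nlinarith
  set y := z - s • e with hy
  have hyη : ‖y‖ ≤ η := hs
  have e1 : z = s • e + y := by rw [hy]; abel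
  have e2 : |s| * Real.cos φ₀ ≤ |⟪u, z⟫_ℝ| + |⟪u, y⟫_ℝ| := by
    have h3 : s * Real.cos φ₀ = ⟪u, z⟫_ℝ - ⟪u, y⟫_ℝ := by
      rw [e1, inner_add_right, inner_smul_right, hcos]; ring
    calc |s| * Real.cos φ₀ = |s * Real.cos φ₀| := by rw [abs_mul, abs_of_nonneg hcφ₀]
      _ ≤ _ := by rw [h3]; exact abs_sub _ _
  have e3 : ‖z - ⟪u, z⟫_ℝ • u‖ ≤ |s| * Real.sin φ₀ + ‖y - ⟪u, y⟫_ℝ • u‖ := by
    have h3 : z - ⟪u, z⟫_ℝ • u = s • (e - ⟪u, e⟫_ℝ • u) + (y - ⟪u, y⟫_ℝ • u) := by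
      rw [e1, inner_add_right, inner_smul_right]
      module
    rw [h3]
    refine (norm_add_le _ _).trans ?_
    rw [norm_smul, hsin, Real.norm_eq_abs]
  have e4 : Real.sin φ * |⟪u, y⟫_ℝ| + Real.cos φ * ‖y - ⟪u, y⟫_ℝ • u‖ ≤ ‖y‖ := by
    have h3 := norm_hor_sq (z := y) hu
    refine abs_le_of_sq_le_sq' ?_ (norm_nonneg _) |>.2
    have h4 := sq_abs ⟪u, y⟫_ℝ
    have h5 := Real.sin_sq_add_cos_sq φ
    have h6 : ‖y‖ ^ 2 = |⟪u, y⟫_ℝ| ^ 2 + ‖y - ⟪u, y⟫_ℝ • u‖ ^ 2 := by rw [h4, h3]; ring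
    rw [h6]
    nlinarith [sq_nonneg (Real.sin φ * ‖y - ⟪u, y⟫_ℝ • u‖ - Real.cos φ * |⟪u, y⟫_ℝ|)]
  rw [Real.sin_sub]
  have e5 := mul_le_mul_of_nonneg_left e2 hsφ
  have e6 := mul_le_mul_of_nonneg_left e3 hcφ
  nlinarith

end Run7.h523.FT
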