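import Mathlib
import Pool.Agent.Run7.h523.FT.Geo
import Pool.Agent.Run7.h523.FT.Count

set_option autoImplicit false

/-!
# Neighbourhoods of segments
-/

open Set Metric MeasureTheory
open scoped InnerProductSpace ENNReal

namespace Run7.h523.FT

/-- The closed `r`-neighbourhood of the segment `{b + s e : α ≤ s ≤ β}`. -/
def nb {n : ℕ} (r : ℝ) (b e : E n) (α β : ℝ) : Set (E n) :=
  {y | ∃ s ∈ Icc α β, ‖y - (b + s • e)‖ ≤ r}

theorem isCompact_nb {n : ℕ} (r : ℝ) (b e : E n) (α β : ℝ) : IsCompact (nb r b e α β) := by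
  have h1 : nb r b e α β = (fun p : ℝ × E n => b + p.1 • e + p.2) '' (Icc α β ×ˢ closedBall 0 r) := by
    ext y
    constructor
    · rintro ⟨s, hs, h⟩
      refine ⟨(s, y - (b + s • e)), ⟨hs, ?_⟩, ?_⟩
      · rw [mem_closedBall, dist_zero_right]; exact h
      · simp
    · rintro ⟨⟨s, z⟩, ⟨hs, hz⟩, rfl⟩
      refine ⟨s, hs, ?_⟩
      rw [mem_closedBall, dist_zero_right] at hz
      simpa using hz
  rw [h1]
  exact (isCompact_Icc.prod (isCompact_closedBall _ _)).image (by fun_prop)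

theorem measurableSet_nb {n : ℕ} (r : ℝ) (b e : E n) (α β : ℝ) : MeasurableSet (nb r b e α β) :=
  (isCompact_nb r b e α β).isClosed.measurableSet

theorem nb_mono {n : ℕ} {r : ℝ} {b e : E n} {α β α' β' : ℝ} (h1 : α' ≤ α) (h2 : β ≤ β') :
    nb r b e α β ⊆ nb r b e α' β' := by
  rintro y ⟨s, hs, h⟩
  exact ⟨s, ⟨h1.trans hs.1, hs.2.trans h2⟩, h⟩

/-- The constant in the bound for the volume of `nb`. -/
noncomputable def nbC (d : ℕ) : ℝ := 2 ^ (d + 1) * (volume (ball (0 : E (d + 1)) 1)).toReal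

theorem nbC_pos (d : ℕ) : 0 < nbC d := by
  unfold nbC
  have : 0 < (volume (ball (0 : E (d + 1)) 1)).toReal :=
    ENNReal.toReal_pos (measure_ball_pos _ _ one_pos).ne' measure_ball_lt_top.ne
  positivity

theorem vol_nb {d : ℕ} {r D α β : ℝ} (hr : 0 < r) (hD : 0 ≤ D) (hαβ : β - α ≤ D)
    (b : E (d + 1)) {e : E (d + 1)} (he : ‖e‖ = 1) :
    volume (nb r b e α β) ≤ ENNReal.ofReal (nbC d * r ^ d * (D + r)) := by
  set k := ⌊D / r⌋₊ with hk
  have hsub : nb r b e α β ⊆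
      ⋃ i ∈ Finset.range (k + 1), closedBall (b + (α + i * r) • e) (2 * r) := by
    rintro y ⟨s, hs, h⟩
    have h0 : 0 ≤ (s - α) / r := div_nonneg (by linarith [hs.1]) hr.le
    refine mem_iUnion₂.2 ⟨⌊(s - α) / r⌋₊, ?_, ?_⟩
    · rw [Finset.mem_range, Nat.lt_succ_iff]
      apply Nat.floor_le_floor
      gcongr
      linarith [hs.2]
    · rw [mem_closedBall, dist_eq_norm]
      have h1 := Nat.floor_le h0
      have h2 := Nat.lt_floor_add_one ((s - α) / r)
      rw [le_div_iff₀ hr] at h1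
      rw [div_lt_iff₀ hr] at h2
      have e1 : y - (b + (α + (⌊(s - α) / r⌋₊ : ℝ) * r) • e) =
          (y - (b + s • e)) + (s - (α + (⌊(s - α) / r⌋₊ : ℝ) * r)) • e := by module
      rw [e1]
      refine (norm_add_le _ _).trans ?_
      rw [norm_smul, he, Real.norm_eq_abs, abs_of_nonneg (by linarith)]
      linarith
  refine (measure_mono hsub).trans ((measure_biUnion_finset_le _ _).trans ?_)
  have h2 : ∀ i ∈ Finset.range (k + 1),
      volume (closedBall (b + (α + (i : ℝ) * r) • e) (2 * r)) ≤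
      ENNReal.ofReal ((2 * r) ^ (d + 1) * (volume (ball (0 : E (d + 1)) 1)).toReal) := by
    intro i _
    rw [Measure.addHaar_closedBall _ _ (by positivity), finrank_euclideanSpace_fin,
      ENNReal.ofReal_mul (by positivity), ENNReal.ofReal_toReal measure_ball_lt_top.ne]
  refine (Finset.sum_le_card_nsmul _ _ _ h2).trans ?_
  rw [Finset.card_range, nsmul_eq_mul, ← ENNReal.ofReal_natCast, ← ENNReal.ofReal_mul
    (by positivity)]
  apply ENNReal.ofReal_le_ofReal
  have h3 : ((k + 1 : ℕ) : ℝ) ≤ D / r + 1 := by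
    push_cast
    have := Nat.floor_le (div_nonneg hD hr.le)
    linarith
  have h7 : (0:ℝ) ≤ (volume (ball (0 : E (d + 1)) 1)).toReal := ENNReal.toReal_nonneg
  calc ((k + 1 : ℕ) : ℝ) * ((2 * r) ^ (d + 1) * (volume (ball (0 : E (d + 1)) 1)).toReal)
      ≤ (D / r + 1) * ((2 * r) ^ (d + 1) * (volume (ball (0 : E (d + 1)) 1)).toReal) := by gcongr
    _ = nbC d * r ^ d * (D + r) := by
      unfold nbC
      field_simp
      ring

/-- A set of parameters of small diameter. -/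
theorem nb_of_diam {n : ℕ} {r D : ℝ} {b e : E n} {B : Set ℝ} (hB : B.Nonempty)
    (hD : ∀ s ∈ B, ∀ s' ∈ B, |s - s'| ≤ D) :
    ∃ α β : ℝ, β - α ≤ D ∧ ∀ y, (∃ s ∈ B, ‖y - (b + s • e)‖ ≤ r) → y ∈ nb r b e α β := by
  obtain ⟨s₀, hs₀⟩ := hB
  have hb1 : BddBelow B := ⟨s₀ - D, fun s hs => by
    have := abs_le.1 (hD s hs s₀ hs₀); linarith [this.1]⟩
  have hb2 : BddAbove B := ⟨s₀ + D, fun s hs => by
    have := abs_le.1 (hD s hs s₀ hs₀); linarith [this.2]⟩
  refine ⟨sInf B, sSup B, ?_, ?_⟩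
  · have h1 : sSup B ≤ sInf B + D := by
      refine csSup_le ⟨s₀, hs₀⟩ fun s hs => ?_
      have h2 : s - D ≤ sInf B := le_csInf ⟨s₀, hs₀⟩ fun s' hs' => by
        have := abs_le.1 (hD s hs s' hs'); linarith [this.2]
      linarith
    linarith
  · rintro y ⟨s, hs, h⟩
    exact ⟨s, ⟨csInf_le hb1 hs, le_csSup hb2 hs⟩, h⟩

end Run7.h523.FT
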