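import Mathlib
import Pool.Agent.Run7.h523.FT.Tube
import Pool.Agent.Run7.h523.FT.Sum

set_option autoImplicit false

/-!
# The `L²` estimate for pieces of tubes of a front family
-/

open Set Metric MeasureTheory
open scoped InnerProductSpace ENNReal

namespace Run7.h523.FT

variable {d : ℕ} {ι : Type*}

/-- A front family (the axes are the segments of length one with centres `b i`, directions `e i`);
all conditions only for the members of `I`. -/
structure Cell (ρ δ : ℝ) (u : E (d + 1)) (b e : ι → E (d + 1)) (I : Finset ι) : Prop where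
  nu : ‖u‖ = 1
  unit : ∀ i ∈ I, ‖e i‖ = 1
  up : ∀ i ∈ I, 0 < ⟪u, e i⟫_ℝ
  sep : ∀ i ∈ I, ∀ j ∈ I, i ≠ j → δ ≤ ‖e i - e j‖
  lev : ∀ i ∈ I, ∀ j ∈ I, ⟪u, e i⟫_ℝ = ⟪u, e j⟫_ℝ ∨
    δ ≤ |InnerProductGeometry.angle u (e i) - InnerProductGeometry.angle u (e j)|
  front : ∀ i ∈ I, ∀ j ∈ I, ⟪u, e i⟫_ℝ = ⟪u, e j⟫_ℝ → ∀ s ∈ Icc (-1 / 2 : ℝ) (1 / 2),
    ∀ s' ∈ Icc (-1 / 2 : ℝ) (1 / 2), ‖(b i + s • e i) - (b j + s' • e j)‖ ≤ ρ →
      |⟪u, (b i + s • e i) - (b j + s' • e j)⟫_ℝ| ≤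
        ⟪u, e i⟫_ℝ * ‖(b i + s • e i) - (b j + s' • e j)‖

theorem Cell.mono {ρ δ : ℝ} {u : E (d + 1)} {b e : ι → E (d + 1)} {I J : Finset ι}
    (h : Cell ρ δ u b e I) (hJ : J ⊆ I) : Cell ρ δ u b e J :=
  ⟨h.nu, fun i hi => h.unit i (hJ hi), fun i hi => h.up i (hJ hi),
    fun i hi j hj => h.sep i (hJ hi) j (hJ hj), fun i hi j hj => h.lev i (hJ hi) j (hJ hj),
    fun i hi j hj => h.front i (hJ hi) j (hJ hj)⟩

/-- The bound for the multiplicity. -/
noncomputable def mulC (d : ℕ) (K ρ h : ℝ) : ℝ :=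
  2 * (d + 1) * ((4 * d + 6) * (32 * K / (ρ * h))) ^ (d - 1)

theorem mulC_pos (d : ℕ) {K ρ h : ℝ} (hK : 0 < K) (hρ : 0 < ρ) (hh : 0 < h) : 0 < mulC d K ρ h := by
  unfold mulC; positivity

section

variable {ρ δ K h α β : ℝ} {u : E (d + 1)} {b e : ι → E (d + 1)} {I : Finset ι}

open Classical in
/-- Bounded multiplicity inside a level. -/
theorem mult (hd : 1 ≤ d) (H : Cell ρ δ u b e I) (hρ : 0 < ρ) (hρ1 : ρ ≤ 1) (hδ : 0 < δ) (hK : 1 ≤ K)
    (hr : 8 * (K * δ) ≤ ρ) (hh : 0 < h) (hh1 : h ≤ 1) (hα : -1 / 2 + h ≤ α) (hβ : β ≤ 1 / 2 - h)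
    (c : ℝ) (y : E (d + 1)) :
    ((I.filter (fun j => ⟪u, e j⟫_ℝ = c ∧ y ∈ nb (K * δ) (b j) (e j) α β)).card : ℝ) ≤
      mulC d K ρ h := by
  set A := I.filter (fun j => ⟪u, e j⟫_ℝ = c ∧ y ∈ nb (K * δ) (b j) (e j) α β) with hA
  have hAI : ∀ i ∈ A, i ∈ I := fun i hi => (Finset.mem_filter.1 hi).1
  have hR : ∀ i ∈ A, ∀ j ∈ A, ‖e i - e j‖ ≤ 32 * (K * δ) / (ρ * h) := by
    intro i hi j hj
    obtain ⟨s, hs, hys⟩ := (Finset.mem_filter.1 hi).2.2
    obtain ⟨s', hs', hys'⟩ := (Finset.mem_filter.1 hj).2.2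
    have hci := (Finset.mem_filter.1 hi).2.1
    have hcj := (Finset.mem_filter.1 hj).2.1
    set w := (b i + s • e i) - (b j + s' • e j) with hw
    have hwn : ‖w‖ ≤ 2 * (K * δ) := by
      have e1 : w = (y - (b j + s' • e j)) - (y - (b i + s • e i)) := by rw [hw]; abel
      rw [e1]
      exact (norm_sub_le _ _).trans (by linarith)
    have hρh : h * ρ / 8 ≤ h := by nlinarith
    have hρh' : h * ρ / 8 ≤ ρ / 8 := by nlinarith
    have key := sep_of_front (u := u) (e := e i) (e' := e j) (w := w) (c := c) (h := h * ρ / 8)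
      (hci ▸ H.up i (hAI i hi)) (H.unit i (hAI i hi)) (H.unit j (hAI j hj)) hci hcj (by positivity) (by
        intro t t' ht ht'
        have e1 : w + t • e i - t' • e j = (b i + (s + t) • e i) - (b j + (s' + t') • e j) := by
          rw [hw]; module
        rw [e1, ← hci]
        have ht1 := abs_le.1 ht
        have ht2 := abs_le.1 ht'
        refine H.front i (hAI i hi) j (hAI j hj) (hci.trans hcj.symm) _ ?_ _ ?_ ?_
        · constructor <;> linarith [hs.1, hs.2, ht1.1, ht1.2]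
        · constructor <;> linarith [hs'.1, hs'.2, ht2.1, ht2.2]
        · rw [← e1]
          calc ‖w + t • e i - t' • e j‖ ≤ ‖w‖ + ‖t • e i‖ + ‖t' • e j‖ :=
                (norm_sub_le _ _).trans (add_le_add (norm_add_le _ _) le_rfl)
            _ ≤ ρ := by
              rw [norm_smul, norm_smul, H.unit i (hAI i hi), H.unit j (hAI j hj), Real.norm_eq_abs,
                Real.norm_eq_abs]
              linarith)
    rw [le_div_iff₀ (by positivity)]
    nlinarith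
  have hδR : δ ≤ 32 * (K * δ) / (ρ * h) := by
    rw [le_div_iff₀ (by positivity)]
    have h1 : ρ * h ≤ 1 := by nlinarith
    have h2 : δ * (ρ * h) ≤ δ * 1 := by gcongr
    nlinarith
  have hcount := count_level hd H.nu A e hδ hδR
    (fun i hi => ⟨H.unit i (hAI i hi), (Finset.mem_filter.1 hi).2.1⟩)
    (fun i hi j hj hne => H.sep i (hAI i hi) j (hAI j hj) hne) hR
  refine hcount.trans_eq ?_
  unfold mulC
  congr 3
  field_simp

/-- A slow tube stays near a fast front for a short time only. -/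
theorem close_pair (H : Cell ρ δ u b e I) {r : ℝ} (hr : 8 * r ≤ ρ) (hr0 : 0 ≤ r)
    (hα : -1 / 2 ≤ α) (hβ : β ≤ 1 / 2) (hαβ : β - α ≤ ρ / 8) {i j₁ j₂ : ι} (hi : i ∈ I)
    (h1 : j₁ ∈ I) (h2 : j₂ ∈ I) (hj : ⟪u, e j₁⟫_ℝ = ⟪u, e j₂⟫_ℝ) (hle : ⟪u, e j₁⟫_ℝ ≤ ⟪u, e i⟫_ℝ)
    {s₁ s₂ t₁ t₂ : ℝ} (hs₁ : s₁ ∈ Icc α β) (hs₂ : s₂ ∈ Icc α β) (ht₁ : t₁ ∈ Icc α β)
    (ht₂ : t₂ ∈ Icc α β) {y₁ y₂ : E (d + 1)} (a1 : ‖y₁ - (b i + s₁ • e i)‖ ≤ r)
    (a2 : ‖y₁ - (b j₁ + t₁ • e j₁)‖ ≤ r) (a3 : ‖y₂ - (b i + s₂ • e i)‖ ≤ r)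
    (a4 : ‖y₂ - (b j₂ + t₂ • e j₂)‖ ≤ r) :
    |s₁ - s₂| * Real.sin (InnerProductGeometry.angle u (e j₁) - InnerProductGeometry.angle u (e i)) ≤
      4 * r := by
  set z := (b j₁ + t₁ • e j₁) - (b j₂ + t₂ • e j₂) with hz
  have hcos : ∀ j ∈ I, Real.cos (InnerProductGeometry.angle u (e j)) = ⟪u, e j⟫_ℝ := by
    intro j hj
    rw [InnerProductGeometry.cos_angle, H.nu, H.unit j hj]
    simp
  have hzs : ‖z - (s₁ - s₂) • e i‖ ≤ 4 * r := by
    have e1 : z - (s₁ - s₂) • e i = (y₁ - (b i + s₁ • e i)) - (y₁ - (b j₁ + t₁ • e j₁)) -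
        ((y₂ - (b i + s₂ • e i)) - (y₂ - (b j₂ + t₂ • e j₂))) := by rw [hz]; module
    rw [e1]
    refine (norm_sub_le _ _).trans ?_
    have b1 := norm_sub_le (y₁ - (b i + s₁ • e i)) (y₁ - (b j₁ + t₁ • e j₁))
    have b2 := norm_sub_le (y₂ - (b i + s₂ • e i)) (y₂ - (b j₂ + t₂ • e j₂))
    linarith
  have hss : |s₁ - s₂| ≤ ρ / 8 := by
    rw [abs_le]; constructor <;> linarith [hs₁.1, hs₁.2, hs₂.1, hs₂.2]
  have hzn : ‖z‖ ≤ ρ := by
    have e1 : z = (z - (s₁ - s₂) • e i) + (s₁ - s₂) • e i := by abel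
    rw [e1]
    refine (norm_add_le _ _).trans ?_
    rw [norm_smul, H.unit i hi, Real.norm_eq_abs]
    linarith [abs_nonneg (s₁ - s₂)]
  have hout := H.front j₁ h1 j₂ h2 hj t₁ ⟨by linarith [ht₁.1], by linarith [ht₁.2]⟩ t₂
    ⟨by linarith [ht₂.1], by linarith [ht₂.2]⟩ hzn
  refine transv H.nu (H.unit i hi) ?_ ?_ ?_ hzs
  · unfold InnerProductGeometry.angle
    apply Real.arccos_le_arccos
    rw [H.nu, H.unit i hi, H.unit j₁ h1]
    simpa using hle
  · rw [InnerProductGeometry.angle, Real.arccos_le_pi_div_two]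
    exact div_nonneg (H.up j₁ h1).le (by positivity)
  · rw [hcos j₁ h1]
    exact hout

open Classical in
/-- The overlap of a tube with the tubes of one level. -/
theorem level_est (hd : 1 ≤ d) (H : Cell ρ δ u b e I) (hρ : 0 < ρ) (hρ1 : ρ ≤ 1) (hδ : 0 < δ)
    (hK : 1 ≤ K) (hr : 8 * (K * δ) ≤ ρ) (hh : 0 < h) (hh1 : h ≤ 1) (hα : -1 / 2 + h ≤ α)
    (hβ : β ≤ 1 / 2 - h) (hαβ : β - α ≤ ρ / 8) {i : ι} (hi : i ∈ I)
    (c D : ℝ) (hD : 0 ≤ D) (hc : c ≤ ⟪u, e i⟫_ℝ)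
    (hDD : β - α ≤ D ∨ ∀ j ∈ I, ⟪u, e j⟫_ℝ = c →
      4 * (K * δ) ≤ D * Real.sin (InnerProductGeometry.angle u (e j) - InnerProductGeometry.angle u (e i)) ∧
      0 < Real.sin (InnerProductGeometry.angle u (e j) - InnerProductGeometry.angle u (e i))) :
    ∑ j ∈ I with ⟪u, e j⟫_ℝ = c,
      volume (nb (K * δ) (b i) (e i) α β ∩ nb (K * δ) (b j) (e j) α β) ≤
      ENNReal.ofReal (min ((I.filter (fun j => ⟪u, e j⟫_ℝ = c)).card : ℝ) (mulC d K ρ h) *
        (nbC d * (K * δ) ^ d * (D + K * δ))) := by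
  set A := I.filter (fun j => ⟪u, e j⟫_ℝ = c) with hA
  set U : ι → Set (E (d + 1)) := fun j => nb (K * δ) (b j) (e j) α β with hU
  have hAI : ∀ j ∈ A, j ∈ I := fun i hi => (Finset.mem_filter.1 hi).1
  have hAc : ∀ j ∈ A, ⟪u, e j⟫_ℝ = c := fun i hi => (Finset.mem_filter.1 hi).2
  have hr0 : 0 < K * δ := by positivity
  set B : Set ℝ := {s | s ∈ Icc α β ∧ ∃ y, ‖y - (b i + s • e i)‖ ≤ K * δ ∧ ∃ j ∈ A, y ∈ U j} with hB
  set G : Set (E (d + 1)) := ⋃ j ∈ A, (U i ∩ U j) with hG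
  have hGvol : volume G ≤ ENNReal.ofReal (nbC d * (K * δ) ^ d * (D + K * δ)) := by
    rcases B.eq_empty_or_nonempty with hBe | hBn
    · have : G = ∅ := by
        rw [eq_empty_iff_forall_notMem]
        intro y hy
        obtain ⟨j, hj, hy1, hy2⟩ := mem_iUnion₂.1 hy
        obtain ⟨s, hs, hys⟩ := hy1
        have : s ∈ B := ⟨hs, y, hys, j, hj, hy2⟩
        rw [hBe] at this
        exact this
      rw [this, measure_empty]
      exact zero_le
    · have hBD : ∀ s ∈ B, ∀ s' ∈ B, |s - s'| ≤ D := by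
        rintro s ⟨hs, y, hys, j, hj, hyj⟩ s' ⟨hs', y', hys', j', hj', hyj'⟩
        rcases hDD with h1 | h1
        · rw [abs_le]; constructor <;> linarith [hs.1, hs.2, hs'.1, hs'.2]
        · obtain ⟨t, ht, hyt⟩ := hyj
          obtain ⟨t', ht', hyt'⟩ := hyj'
          have h2 := close_pair H hr hr0.le (by linarith) (by linarith) hαβ hi (hAI j hj) (hAI j' hj')
            ((hAc j hj).trans (hAc j' hj').symm) ((hAc j hj).trans_le hc) hs hs' ht ht' hys hyt hys' hyt'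
          obtain ⟨h3, h4⟩ := h1 j (hAI j hj) (hAc j hj)
          exact le_of_mul_le_mul_right (h2.trans h3) h4
      obtain ⟨α', β', h1, h2⟩ := nb_of_diam (n := d + 1) (r := K * δ) (b := b i) (e := e i) hBn hBD
      refine (measure_mono ?_).trans (vol_nb hr0 hD h1 (b i) (H.unit i hi))
      intro y hy
      obtain ⟨j, hj, hy1, hy2⟩ := mem_iUnion₂.1 hy
      obtain ⟨s, hs, hys⟩ := hy1
      exact h2 y ⟨s, ⟨hs, y, hys, j, hj, hy2⟩, hys⟩
  have hUm : ∀ j, MeasurableSet (U j) := fun j => measurableSet_nb _ _ _ _ _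
  have hGm : MeasurableSet G :=
    Finset.measurableSet_biUnion _ fun j _ => (hUm i).inter (hUm j)
  have hQ := mulC_pos d (K := K) (by linarith) hρ hh
  have h1 : ∑ j ∈ A, volume (U i ∩ U j) ≤ ENNReal.ofReal (A.card : ℝ) * volume G := by
    rw [ENNReal.ofReal_natCast, ← nsmul_eq_mul]
    refine Finset.sum_le_card_nsmul _ _ _ fun j hj => ?_
    apply measure_mono
    intro y hy
    exact mem_iUnion₂.2 ⟨j, hj, hy⟩
  have h2 : ∑ j ∈ A, volume (U i ∩ U j) ≤ ENNReal.ofReal (mulC d K ρ h) * volume G := by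
    have e1 : ∀ j ∈ A, volume (U i ∩ U j) =
        ∫⁻ y, (U i ∩ U j).indicator (fun _ => (1 : ℝ≥0∞)) y := by
      intro j _
      rw [lintegral_indicator_const ((hUm i).inter (hUm j)), one_mul]
    rw [Finset.sum_congr rfl e1, ← lintegral_finsetSum _ fun j _ =>
      (measurable_const.indicator ((hUm i).inter (hUm j)))]
    rw [← lintegral_indicator_const hGm]
    apply lintegral_mono
    intro y
    simp only
    by_cases hy : y ∈ G
    · rw [indicator_of_mem hy]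
      have e2 : ∑ j ∈ A, (U i ∩ U j).indicator (fun _ => (1 : ℝ≥0∞)) y ≤
          ((A.filter (fun j => y ∈ U j)).card : ℝ≥0∞) := by
        rw [Finset.card_filter, Nat.cast_sum]
        refine Finset.sum_le_sum fun j _ => ?_
        by_cases hyj : y ∈ U j
        · rw [if_pos hyj, Nat.cast_one]
          exact indicator_le_self' (fun _ _ => zero_le) y
        · rw [if_neg hyj, Nat.cast_zero, indicator_of_notMem (fun h => hyj h.2)]
      refine e2.trans ?_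
      have e3 := mult hd H hρ hρ1 hδ hK hr hh hh1 hα hβ c y
      rw [← ENNReal.ofReal_natCast]
      apply ENNReal.ofReal_le_ofReal
      refine le_trans ?_ e3
      rw [hA, Finset.filter_filter]
    · rw [indicator_of_notMem hy]
      rw [Finset.sum_eq_zero]
      intro j hj
      rw [indicator_of_notMem]
      intro h
      exact hy (mem_iUnion₂.2 ⟨j, hj, h⟩)
  have hnn : 0 ≤ nbC d * (K * δ) ^ d * (D + K * δ) := by
    have := nbC_pos d
    positivity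
  rcases le_total (A.card : ℝ) (mulC d K ρ h) with h | h
  · rw [min_eq_left h, ENNReal.ofReal_mul (by positivity)]
    exact h1.trans (by gcongr)
  · rw [min_eq_right h, ENNReal.ofReal_mul hQ.le]
    exact h2.trans (by gcongr)

end

end Run7.h523.FT
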