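import Mathlib
import Pool.Agent.Run7.h523.FT.Core

set_option autoImplicit false

/-!
# The `L²` estimate for pieces of tubes of a front family: the sum over the levels
-/

open Set Metric MeasureTheory
open scoped InnerProductSpace ENNReal

namespace Run7.h523.FT

variable {d : ℕ} {ι : Type*}

section

variable {ρ δ K h α β : ℝ} {u : E (d + 1)} {b e : ι → E (d + 1)} {I : Finset ι}

theorem Cell.angle_eq (H : Cell ρ δ u b e I) {j : ι} (hj : j ∈ I) :
    InnerProductGeometry.angle u (e j) = Real.arccos ⟪u, e j⟫_ℝ := by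
  unfold InnerProductGeometry.angle
  rw [H.nu, H.unit j hj]
  simp

/-- The bound for a row. -/
noncomputable def rowB (d : ℕ) (K ρ h C₁ θ N δ : ℝ) : ℝ :=
  nbC d * (K * δ) ^ d * (2 * Real.pi * K + K * (2 + C₁)) *
    (mulC d K ρ h * h + (1 / θ + 1) * (mulC d K ρ h ^ (1 - θ) * N ^ θ * h ^ θ))

open Classical in
theorem row_est (hd : 1 ≤ d) (H : Cell ρ δ u b e I) (hρ : 0 < ρ) (hρ1 : ρ ≤ 1) (hδ : 0 < δ)
    (hK : 1 ≤ K) (hr : 8 * (K * δ) ≤ ρ) (hh : 0 < h) (hh1 : h ≤ 1) (hα : -1 / 2 + h ≤ α)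
    (hβ : β ≤ 1 / 2 - h) (hαβ : β - α ≤ ρ / 8) (hαβ' : β - α ≤ h) {C₁ θ N : ℝ} (hC₁ : 0 ≤ C₁)
    (hδh : δ ≤ C₁ * h) (hθ : 0 < θ) (hθ1 : θ ≤ 1) (hN : 0 < N) (hIN : (I.card : ℝ) ≤ N)
    {i : ι} (hi : i ∈ I) :
    ∑ j ∈ I with ⟪u, e j⟫_ℝ ≤ ⟪u, e i⟫_ℝ,
      volume (nb (K * δ) (b i) (e i) α β ∩ nb (K * δ) (b j) (e j) α β) ≤
      ENNReal.ofReal (rowB d K ρ h C₁ θ N δ) := by
  set Q := mulC d K ρ h with hQ
  have hQ0 : 0 < Q := mulC_pos d (by linarith) hρ hh
  set V : ι → ℝ≥0∞ := fun j =>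
    volume (nb (K * δ) (b i) (e i) α β ∩ nb (K * δ) (b j) (e j) α β) with hV
  set I' := I.filter (fun j => ⟪u, e j⟫_ℝ ≤ ⟪u, e i⟫_ℝ) with hI'
  set L := I'.image (fun j => ⟪u, e j⟫_ℝ) with hL
  set c₀ := ⟪u, e i⟫_ℝ with hc₀
  have hpi := Real.pi_gt_three
  have hpi4 := Real.pi_le_four
  set C₂ := 2 * Real.pi * K + K * (2 + C₁) with hC₂
  have hC₂0 : 0 < C₂ := by positivity
  set Z := nbC d * (K * δ) ^ d with hZ
  have hZ0 : 0 < Z := by have := nbC_pos d; positivity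
  have hsum : ∑ j ∈ I', V j = ∑ c ∈ L, ∑ j ∈ I with ⟪u, e j⟫_ℝ = c, V j := by
    rw [← Finset.sum_fiberwise_of_maps_to (g := fun j => ⟪u, e j⟫_ℝ) (t := L)
      (fun j hj => Finset.mem_image_of_mem _ hj)]
    refine Finset.sum_congr rfl fun c hc => ?_
    refine Finset.sum_congr ?_ fun _ _ => rfl
    obtain ⟨j₀, hj₀, hj₀c⟩ := Finset.mem_image.1 hc
    ext j
    simp only [hI', Finset.mem_filter]
    constructor
    · rintro ⟨⟨h1, -⟩, h2⟩; exact ⟨h1, h2⟩
    · rintro ⟨h1, h2⟩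
      refine ⟨⟨h1, ?_⟩, h2⟩
      rw [h2, ← hj₀c]
      exact (Finset.mem_filter.1 hj₀).2
  rw [hsum]
  -- the levels
  have hLc : ∀ c ∈ L, c ≤ c₀ ∧ ∃ j ∈ I, ⟪u, e j⟫_ℝ = c := by
    intro c hc
    obtain ⟨j, hj, rfl⟩ := Finset.mem_image.1 hc
    exact ⟨(Finset.mem_filter.1 hj).2, j, (Finset.mem_filter.1 hj).1, rfl⟩
  set k : ℝ → ℕ := fun c => ⌊(Real.arccos c - Real.arccos c₀) / δ⌋₊ - 1 with hk
  have hgap : ∀ c ∈ L, ∀ c' ∈ L, c ≠ c' → δ ≤ |Real.arccos c - Real.arccos c'| := by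
    intro c hc c' hc' hne
    obtain ⟨-, j, hj, hjc⟩ := hLc c hc
    obtain ⟨-, j', hj', hjc'⟩ := hLc c' hc'
    rcases H.lev j hj j' hj' with h1 | h1
    · exact absurd (hjc.symm.trans (h1.trans hjc')) hne
    · rwa [H.angle_eq hj, H.angle_eq hj', hjc, hjc'] at h1
  have hgap0 : ∀ c ∈ L, c ≠ c₀ → 1 ≤ (Real.arccos c - Real.arccos c₀) / δ := by
    intro c hc hne
    obtain ⟨h0, j, hj, hjc⟩ := hLc c hc
    rw [le_div_iff₀ hδ, one_mul]
    rcases H.lev j hj i hi with h1 | h1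
    · exact absurd (hjc.symm.trans h1) hne
    · rw [H.angle_eq hj, H.angle_eq hi, hjc] at h1
      rwa [abs_of_nonneg (by
        have := Real.arccos_le_arccos h0
        linarith)] at h1
  have hk1 : ∀ c ∈ L, c ≠ c₀ → ((k c : ℕ) : ℝ) + 1 = ⌊(Real.arccos c - Real.arccos c₀) / δ⌋₊ := by
    intro c hc hne
    have h1 : 1 ≤ ⌊(Real.arccos c - Real.arccos c₀) / δ⌋₊ := by
      rw [Nat.one_le_floor_iff]; exact hgap0 c hc hne
    rw [hk]
    simp only
    rw [Nat.cast_sub h1]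
    simp
  have hkδ : ∀ c ∈ L, c ≠ c₀ → ((k c : ℕ) + 1 : ℝ) * δ ≤ Real.arccos c - Real.arccos c₀ := by
    intro c hc hne
    rw [hk1 c hc hne, ← le_div_iff₀ hδ]
    exact Nat.floor_le (zero_le_one.trans (hgap0 c hc hne))
  have hpos : ∀ c ∈ L, 0 < c := by
    intro c hc
    obtain ⟨-, j, hj, hjc⟩ := hLc c hc
    rw [← hjc]
    exact H.up j hj
  have hpi2 : ∀ c ∈ L, Real.arccos c ≤ Real.pi / 2 := by
    intro c hc
    rw [Real.arccos_le_pi_div_two]
    exact (hpos c hc).le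
  have harc0 : 0 ≤ Real.arccos c₀ := Real.arccos_nonneg _
  have hone : ∀ c ∈ L, c ≠ c₀ → ∑ j ∈ I with ⟪u, e j⟫_ℝ = c, V j ≤
      ENNReal.ofReal (min ((I.filter (fun j => ⟪u, e j⟫_ℝ = c)).card : ℝ) Q *
        (Z * C₂ * min h (1 / ((k c : ℝ) + 1)))) := by
    intro c hc hne
    have hkp : (0 : ℝ) < (k c : ℝ) + 1 := by positivity
    set D := min h (2 * Real.pi * K / ((k c : ℝ) + 1)) with hD
    have hD0 : 0 ≤ D := le_min hh.le (by positivity)
    have hlev := level_est hd H hρ hρ1 hδ hK hr hh hh1 hα hβ hαβ hi c D hD0 (hLc c hc).1 (by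
      rcases le_total h (2 * Real.pi * K / ((k c : ℝ) + 1)) with h1 | h1
      · left
        rw [hD, min_eq_left h1]
        exact hαβ'
      · right
        intro j hj hjc
        rw [hD, min_eq_right h1, H.angle_eq hj, H.angle_eq hi, hjc]
        have h2 := hkδ c hc hne
        have h3 := hpi2 c hc
        have hx0 : 0 < Real.arccos c - Real.arccos c₀ := by
          have : 0 < ((k c : ℕ) + 1 : ℝ) * δ := by positivity
          linarith
        have h4 := Real.mul_le_sin hx0.le (by linarith)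
        constructor
        · calc 4 * (K * δ) = 2 * Real.pi * K / ((k c : ℝ) + 1) * (2 / Real.pi * (((k c : ℕ) + 1 : ℝ) * δ)) := by
                field_simp
                ring
            _ ≤ 2 * Real.pi * K / ((k c : ℝ) + 1) * (2 / Real.pi * (Real.arccos c - Real.arccos c₀)) := by
                gcongr
            _ ≤ _ := by gcongr
        · exact lt_of_lt_of_le (by positivity) h4)
    refine hlev.trans (ENNReal.ofReal_le_ofReal ?_)
    have hmin0 : 0 ≤ min ((I.filter (fun j => ⟪u, e j⟫_ℝ = c)).card : ℝ) Q :=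
      le_min (Nat.cast_nonneg _) hQ0.le
    apply mul_le_mul_of_nonneg_left _ hmin0
    rw [mul_assoc Z]
    apply mul_le_mul_of_nonneg_left _ hZ0.le
    have m0 : 0 < min h (1 / ((k c : ℝ) + 1)) := lt_min hh (by positivity)
    have h1 : D ≤ 2 * Real.pi * K * min h (1 / ((k c : ℝ) + 1)) := by
      rw [hD, mul_min_of_nonneg _ _ (by positivity)]
      apply min_le_min
      · have : 1 ≤ 2 * Real.pi * K := by nlinarith
        nlinarith
      · rw [mul_one_div]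
    have h2 : δ ≤ (2 + C₁) * min h (1 / ((k c : ℝ) + 1)) := by
      rw [mul_min_of_nonneg _ _ (by positivity)]
      apply le_min
      · nlinarith
      · rw [mul_one_div, le_div_iff₀ hkp]
        have h3 := hkδ c hc hne
        have h4 := hpi2 c hc
        nlinarith
    have h3 : K * δ ≤ K * ((2 + C₁) * min h (1 / ((k c : ℝ) + 1))) := by gcongr
    rw [hC₂]
    nlinarith
  have hzero : c₀ ∈ L → ∑ j ∈ I with ⟪u, e j⟫_ℝ = c₀, V j ≤ ENNReal.ofReal (Z * C₂ * (Q * h)) := by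
    intro _
    have hlev := level_est hd H hρ hρ1 hδ hK hr hh hh1 hα hβ hαβ hi c₀ h hh.le le_rfl (Or.inl hαβ')
    refine hlev.trans (ENNReal.ofReal_le_ofReal ?_)
    have h1 : h + K * δ ≤ C₂ * h := by
      rw [hC₂]
      have : K * δ ≤ K * (C₁ * h) := by gcongr
      have h3 : 1 ≤ 2 * Real.pi * K := by nlinarith
      have h4 : h ≤ 2 * Real.pi * K * h := by nlinarith
      have h5 : 0 ≤ K * 2 * h := by positivity
      nlinarith
    calc _ ≤ Q * (Z * (C₂ * h)) := by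
          gcongr
          exact min_le_right _ _
      _ = _ := by ring
  -- put together
  have hsplit : ∑ c ∈ L, ∑ j ∈ I with ⟪u, e j⟫_ℝ = c, V j ≤
      ENNReal.ofReal (Z * C₂ * (Q * h)) +
        ∑ c ∈ L.erase c₀, ENNReal.ofReal (min ((I.filter (fun j => ⟪u, e j⟫_ℝ = c)).card : ℝ) Q *
        (Z * C₂ * min h (1 / ((k c : ℝ) + 1)))) := by
    by_cases hc : c₀ ∈ L
    · rw [← Finset.add_sum_erase _ _ hc]
      refine add_le_add (hzero hc) (Finset.sum_le_sum fun c hc' => ?_)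
      exact hone c (Finset.mem_of_mem_erase hc') (Finset.ne_of_mem_erase hc')
    · rw [Finset.erase_eq_of_notMem hc]
      refine le_trans (Finset.sum_le_sum fun c hc' => ?_) le_add_self
      exact hone c hc' fun h => hc (h ▸ hc')
  refine hsplit.trans ?_
  have hmnn : ∀ c, 0 ≤ min ((I.filter (fun j => ⟪u, e j⟫_ℝ = c)).card : ℝ) Q :=
    fun c => le_min (Nat.cast_nonneg _) hQ0.le
  rw [← ENNReal.ofReal_sum_of_nonneg (fun c _ => by
    have := hmnn c
    have m0 : 0 < min h (1 / ((k c : ℝ) + 1)) := lt_min hh (by positivity)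
    positivity), ← ENNReal.ofReal_add (by positivity) (Finset.sum_nonneg fun c _ => by
    have := hmnn c
    have m0 : 0 < min h (1 / ((k c : ℝ) + 1)) := lt_min hh (by positivity)
    positivity)]
  apply ENNReal.ofReal_le_ofReal
  have hcs := class_sum (L.erase c₀) k (by
    intro c hc c' hc' hkk
    by_contra hne
    have hcL := Finset.mem_of_mem_erase (Finset.mem_coe.1 hc)
    have hcL' := Finset.mem_of_mem_erase (Finset.mem_coe.1 hc')
    have hn1 := Finset.ne_of_mem_erase (Finset.mem_coe.1 hc)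
    have hn2 := Finset.ne_of_mem_erase (Finset.mem_coe.1 hc')
    have h1 := hgap c hcL c' hcL' hne
    have h2 : (⌊(Real.arccos c - Real.arccos c₀) / δ⌋₊ : ℝ) =
        ⌊(Real.arccos c' - Real.arccos c₀) / δ⌋₊ := by
      rw [← hk1 c hcL hn1, ← hk1 c' hcL' hn2, hkk]
    have a1 := Nat.floor_le (zero_le_one.trans (hgap0 c hcL hn1))
    have a2 := Nat.lt_floor_add_one ((Real.arccos c - Real.arccos c₀) / δ)
    have b1 := Nat.floor_le (zero_le_one.trans (hgap0 c' hcL' hn2))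
    have b2 := Nat.lt_floor_add_one ((Real.arccos c' - Real.arccos c₀) / δ)
    have h3 : |(Real.arccos c - Real.arccos c₀) / δ - (Real.arccos c' - Real.arccos c₀) / δ| < 1 := by
      rw [abs_lt]; constructor <;> linarith
    have h4 : (Real.arccos c - Real.arccos c₀) / δ - (Real.arccos c' - Real.arccos c₀) / δ =
        (Real.arccos c - Real.arccos c') / δ := by ring
    rw [h4, abs_div, abs_of_pos hδ, div_lt_one hδ] at h3
    linarith) (fun c => ((I.filter (fun j => ⟪u, e j⟫_ℝ = c)).card : ℝ)) (fun _ _ => Nat.cast_nonneg _)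
    hθ hθ1 hQ0 hN hh.le (by
      refine le_trans ?_ hIN
      rw [← Nat.cast_sum]
      norm_cast
      rw [← Finset.card_biUnion]
      · apply Finset.card_le_card
        intro j hj
        obtain ⟨c, -, hjc⟩ := Finset.mem_biUnion.1 hj
        exact (Finset.mem_filter.1 hjc).1
      · intro c _ c' _ hne
        rw [Function.onFun, Finset.disjoint_left]
        intro j hj hj'
        exact hne ((Finset.mem_filter.1 hj).2.symm.trans (Finset.mem_filter.1 hj').2))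
  unfold rowB
  rw [← hZ, ← hC₂, ← hQ]
  have e1 : ∑ c ∈ L.erase c₀, min ((I.filter (fun j => ⟪u, e j⟫_ℝ = c)).card : ℝ) Q *
        (Z * C₂ * min h (1 / ((k c : ℝ) + 1))) =
      Z * C₂ * ∑ c ∈ L.erase c₀, min ((I.filter (fun j => ⟪u, e j⟫_ℝ = c)).card : ℝ) Q *
        min h (1 / ((k c : ℝ) + 1)) := by
    rw [Finset.mul_sum]
    refine Finset.sum_congr rfl fun c _ => ?_
    ring
  rw [e1, ← mul_add]
  exact mul_le_mul_of_nonneg_left (by linarith) (by positivity)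

open Classical in
/-- **The `L²` estimate.** -/
theorem l2_est (hd : 1 ≤ d) (H : Cell ρ δ u b e I) (hρ : 0 < ρ) (hρ1 : ρ ≤ 1) (hδ : 0 < δ)
    (hK : 1 ≤ K) (hr : 8 * (K * δ) ≤ ρ) (hh : 0 < h) (hh1 : h ≤ 1) (hα : -1 / 2 + h ≤ α)
    (hβ : β ≤ 1 / 2 - h) (hαβ : β - α ≤ ρ / 8) (hαβ' : β - α ≤ h) {C₁ θ N : ℝ} (hC₁ : 0 ≤ C₁)
    (hδh : δ ≤ C₁ * h) (hθ : 0 < θ) (hθ1 : θ ≤ 1) (hN : 0 < N) (hIN : (I.card : ℝ) ≤ N) :
    ∫⁻ y, (∑ i ∈ I, (nb (K * δ) (b i) (e i) α β).indicator (fun _ => (1 : ℝ≥0∞)) y) ^ 2 ≤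
      ENNReal.ofReal (2 * N * rowB d K ρ h C₁ θ N δ) := by
  set U : ι → Set (E (d + 1)) := fun j => nb (K * δ) (b j) (e j) α β with hU
  have hUm : ∀ j, MeasurableSet (U j) := fun j => measurableSet_nb _ _ _ _ _
  have h1 : ∀ y, (∑ i ∈ I, (U i).indicator (fun _ => (1 : ℝ≥0∞)) y) ^ 2 =
      ∑ i ∈ I, ∑ j ∈ I, (U i ∩ U j).indicator (fun _ => (1 : ℝ≥0∞)) y := by
    intro y
    rw [sq, Finset.sum_mul_sum]
    refine Finset.sum_congr rfl fun i _ => Finset.sum_congr rfl fun j _ => ?_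
    by_cases hi : y ∈ U i <;> by_cases hj : y ∈ U j <;> simp [hi, hj]
  show ∫⁻ y, (∑ i ∈ I, (U i).indicator (fun _ => (1 : ℝ≥0∞)) y) ^ 2 ≤ _
  simp_rw [h1]
  rw [lintegral_finsetSum _ fun i _ => Finset.measurable_sum _ fun j _ =>
    measurable_const.indicator ((hUm i).inter (hUm j))]
  have h2 : ∀ i ∈ I, ∫⁻ y, ∑ j ∈ I, (U i ∩ U j).indicator (fun _ => (1 : ℝ≥0∞)) y =
      ∑ j ∈ I, volume (U i ∩ U j) := by
    intro i _
    rw [lintegral_finsetSum _ fun j _ => measurable_const.indicator ((hUm i).inter (hUm j))]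
    refine Finset.sum_congr rfl fun j _ => ?_
    rw [lintegral_indicator_const ((hUm i).inter (hUm j)), one_mul]
  rw [Finset.sum_congr rfl h2]
  have h3 : ∑ i ∈ I, ∑ j ∈ I, volume (U i ∩ U j) ≤
      ∑ i ∈ I, ∑ j ∈ I with ⟪u, e j⟫_ℝ ≤ ⟪u, e i⟫_ℝ, volume (U i ∩ U j) +
      ∑ i ∈ I, ∑ j ∈ I with ⟪u, e j⟫_ℝ ≤ ⟪u, e i⟫_ℝ, volume (U i ∩ U j) := by
    have h4 : ∑ i ∈ I, ∑ j ∈ I, volume (U i ∩ U j) ≤
        ∑ i ∈ I, ∑ j ∈ I with ⟪u, e j⟫_ℝ ≤ ⟪u, e i⟫_ℝ, volume (U i ∩ U j) +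
        ∑ i ∈ I, ∑ j ∈ I with ⟪u, e i⟫_ℝ ≤ ⟪u, e j⟫_ℝ, volume (U i ∩ U j) := by
      rw [← Finset.sum_add_distrib]
      refine Finset.sum_le_sum fun i _ => ?_
      rw [Finset.sum_filter, Finset.sum_filter, ← Finset.sum_add_distrib]
      refine Finset.sum_le_sum fun j _ => ?_
      rcases le_total ⟪u, e j⟫_ℝ ⟪u, e i⟫_ℝ with h | h
      · rw [if_pos h]; exact le_self_add
      · rw [if_pos h]; exact le_add_self
    refine h4.trans (add_le_add le_rfl (le_of_eq ?_))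
    simp_rw [Finset.sum_filter]
    rw [Finset.sum_comm]
    refine Finset.sum_congr rfl fun i _ => Finset.sum_congr rfl fun j _ => ?_
    rw [inter_comm]
  refine h3.trans ?_
  have h5 : ∑ i ∈ I, ∑ j ∈ I with ⟪u, e j⟫_ℝ ≤ ⟪u, e i⟫_ℝ, volume (U i ∩ U j) ≤
      ENNReal.ofReal (N * rowB d K ρ h C₁ θ N δ) := by
    refine (Finset.sum_le_card_nsmul _ _ _ fun i hi =>
      row_est hd H hρ hρ1 hδ hK hr hh hh1 hα hβ hαβ hαβ' hC₁ hδh hθ hθ1 hN hIN hi).trans ?_
    rw [nsmul_eq_mul, ← ENNReal.ofReal_natCast, ← ENNReal.ofReal_mul (Nat.cast_nonneg _)]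
    apply ENNReal.ofReal_le_ofReal
    have h6 : 0 ≤ rowB d K ρ h C₁ θ N δ := by
      unfold rowB
      have := nbC_pos d
      have := mulC_pos d (K := K) (by linarith) hρ hh
      have := Real.pi_pos
      positivity
    gcongr
  refine (add_le_add h5 h5).trans_eq ?_
  have h6 : 0 ≤ rowB d K ρ h C₁ θ N δ := by
    unfold rowB
    have := nbC_pos d
    have := mulC_pos d (K := K) (by linarith) hρ hh
    have := Real.pi_pos
    positivity
  rw [← ENNReal.ofReal_add (by positivity) (by positivity)]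
  congr 1
  ring

end

end Run7.h523.FT
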