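import Mathlib
import Pool.Agent.Run7.h523.FT.Row

set_option autoImplicit false

/-!
# The `L^q` estimate for pieces of tubes of a front family
-/

open Set Metric MeasureTheory
open scoped InnerProductSpace ENNReal

namespace Run7.h523.FT

/-- Lyapunov's inequality between `L¹` and `L²`. -/
theorem lyap {X : Type*} [MeasurableSpace X] (μ : Measure X) {F : X → ℝ≥0∞} (hF : Measurable F)
    {q : ℝ} (hq1 : 1 < q) (hq2 : q < 2) :
    ∫⁻ x, F x ^ q ∂μ ≤ (∫⁻ x, F x ∂μ) ^ (2 - q) * (∫⁻ x, F x ^ 2 ∂μ) ^ (q - 1) := by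
  have hp : (1 / (2 - q)).HolderConjugate (1 / (q - 1)) := by
    rw [Real.holderConjugate_iff]
    constructor
    · rw [lt_div_iff₀ (by linarith)]; linarith
    · rw [one_div, one_div, inv_inv, inv_inv]; ring
  have h := ENNReal.lintegral_mul_le_Lp_mul_Lq μ hp (f := fun x => F x ^ (2 - q))
    (g := fun x => (F x ^ 2) ^ (q - 1)) (hF.pow_const _).aemeasurable
    ((hF.pow_const _).pow_const _).aemeasurable
  have e1 : ∀ x, ((fun x => F x ^ (2 - q)) * fun x => (F x ^ 2) ^ (q - 1)) x = F x ^ q := by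
    intro x
    simp only [Pi.mul_apply]
    rw [← ENNReal.rpow_natCast, ← ENNReal.rpow_mul, ← ENNReal.rpow_add_of_nonneg _ _ (by linarith)
      (by push_cast; linarith)]
    congr 1
    push_cast
    ring
  have e2 : ∀ x, (F x ^ (2 - q)) ^ (2 - q)⁻¹ = F x := by
    intro x
    rw [← ENNReal.rpow_mul, mul_inv_cancel₀ (by linarith), ENNReal.rpow_one]
  have e3 : ∀ x, ((F x ^ 2) ^ (q - 1)) ^ (q - 1)⁻¹ = F x ^ 2 := by
    intro x
    rw [← ENNReal.rpow_mul, mul_inv_cancel₀ (by linarith), ENNReal.rpow_one]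
  simp_rw [e1] at h
  simp only [one_div, inv_inv, e2, e3] at h
  exact h

theorem expo {q θ M y δ a1 a2 : ℝ} {d : ℕ} (hd : 1 ≤ d) (hM : 0 < M) (hy : 0 < y) (hδ : 0 < δ)
    (ha1 : 0 < a1) (ha2 : 0 < a2) :
    (a1 * (M ^ d * δ ^ d * (y / M))) ^ (2 - q) *
      (a2 * (M ^ d * (δ ^ d * ((1 / (y / M)) ^ (d - 1) * ((y ^ d) ^ θ))))) ^ (q - 1) =
    a1 ^ (2 - q) * a2 ^ (q - 1) * (δ ^ d * (M ^ (d * q - 1) * y ^ (-(d * (q - 1) * (1 - θ) - 1)))) := by
  have hdd : ((d - 1 : ℕ) : ℝ) = d - 1 := by push_cast [Nat.cast_sub hd]; ring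
  apply Real.log_injOn_pos (by simp only [Set.mem_Ioi]; positivity)
    (by simp only [Set.mem_Ioi]; positivity)
  have l1 : Real.log (a1 * (M ^ d * δ ^ d * (y / M))) =
      Real.log a1 + (d * Real.log M + d * Real.log δ + (Real.log y - Real.log M)) := by
    rw [Real.log_mul ha1.ne' (by positivity), Real.log_mul (by positivity) (by positivity),
      Real.log_mul (by positivity) (by positivity), Real.log_pow, Real.log_pow,
      Real.log_div hy.ne' hM.ne']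
  have l2 : Real.log (a2 * (M ^ d * (δ ^ d * ((1 / (y / M)) ^ (d - 1) * ((y ^ d) ^ θ))))) =
      Real.log a2 + (d * Real.log M + (d * Real.log δ + ((d - 1) * (Real.log M - Real.log y) +
        θ * (d * Real.log y)))) := by
    rw [Real.log_mul ha2.ne' (by positivity), Real.log_mul (by positivity) (by positivity),
      Real.log_mul (by positivity) (by positivity), Real.log_mul (by positivity) (by positivity),
      Real.log_pow, Real.log_pow, Real.log_pow, Real.log_rpow (by positivity), Real.log_pow, hdd,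
      one_div_div, Real.log_div hM.ne' hy.ne']
  have l3 : Real.log (a1 ^ (2 - q) * a2 ^ (q - 1) *
      (δ ^ d * (M ^ (d * q - 1) * y ^ (-(d * (q - 1) * (1 - θ) - 1))))) =
      (2 - q) * Real.log a1 + (q - 1) * Real.log a2 + (d * Real.log δ + ((d * q - 1) * Real.log M +
        (-(d * (q - 1) * (1 - θ) - 1)) * Real.log y)) := by
    rw [Real.log_mul (by positivity) (by positivity), Real.log_mul (by positivity) (by positivity),
      Real.log_mul (by positivity) (by positivity), Real.log_mul (by positivity) (by positivity),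
      Real.log_rpow ha1, Real.log_rpow ha2, Real.log_pow, Real.log_rpow hM, Real.log_rpow hy]
  rw [l3, Real.log_mul (by positivity) (by positivity), Real.log_rpow (by positivity),
    Real.log_rpow (by positivity), l1, l2]
  ring

/-- The constant in `mulC`. -/
noncomputable def AQ (d : ℕ) (K ρ : ℝ) : ℝ := 2 * (d + 1) * ((4 * d + 6) * (32 * K / ρ)) ^ (d - 1)

theorem mulC_eq (d : ℕ) {K ρ h : ℝ} (hρ : 0 < ρ) (hh : 0 < h) :
    mulC d K ρ h = AQ d K ρ * (1 / h) ^ (d - 1) := by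
  unfold mulC AQ
  rw [mul_assoc (2 * ((d:ℝ) + 1)), ← mul_pow]
  congr 2
  field_simp

/-- The constant in the `L²` estimate. -/
noncomputable def CR (d : ℕ) (K ρ C₁ θ : ℝ) : ℝ :=
  nbC d * K ^ d * (2 * Real.pi * K + K * (2 + C₁)) *
    (AQ d K ρ * (2 ^ d) ^ θ + (1 / θ + 1) * AQ d K ρ ^ (1 - θ))

theorem rowB_le (d : ℕ) (hd : 1 ≤ d) {K ρ h C₁ θ δ M : ℝ} (hK : 0 < K) (hρ : 0 < ρ) (hh : 0 < h)
    (hh1 : h ≤ 1) (hC₁ : 0 ≤ C₁) (hθ : 0 < θ) (hδ : 0 < δ) (hM : 0 < M)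
    (hMh : 1 / 2 ≤ M * h) :
    rowB d K ρ h C₁ θ (M ^ d) δ ≤
      CR d K ρ C₁ θ * (δ ^ d * ((1 / h) ^ (d - 1) * (((M * h) ^ d) ^ θ))) := by
  have hA : 0 < AQ d K ρ := by unfold AQ; positivity
  have hdd : ((d - 1 : ℕ) : ℝ) = d - 1 := by push_cast [Nat.cast_sub hd]; ring
  have hy0 : 0 < M * h := by positivity
  have h1 : mulC d K ρ h ^ (1 - θ) * (M ^ d) ^ θ * h ^ θ =
      AQ d K ρ ^ (1 - θ) * ((1 / h) ^ (d - 1) * (((M * h) ^ d) ^ θ)) := by
    rw [mulC_eq d hρ hh]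
    apply Real.log_injOn_pos (by simp only [Set.mem_Ioi]; positivity)
      (by simp only [Set.mem_Ioi]; positivity)
    rw [Real.log_mul (by positivity) (by positivity), Real.log_mul (by positivity) (by positivity),
      Real.log_rpow (by positivity), Real.log_rpow (by positivity), Real.log_rpow hh,
      Real.log_mul hA.ne' (by positivity), Real.log_pow, Real.log_pow,
      Real.log_mul (by positivity) (by positivity), Real.log_mul (by positivity) (by positivity),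
      Real.log_rpow hA, Real.log_pow, Real.log_rpow (by positivity), Real.log_pow,
      Real.log_mul hM.ne' hh.ne', one_div, Real.log_inv, hdd]
    ring
  have h2 : mulC d K ρ h * h ≤ AQ d K ρ * (2 ^ d) ^ θ * ((1 / h) ^ (d - 1) * (((M * h) ^ d) ^ θ)) := by
    rw [mulC_eq d hρ hh]
    have h3 : (1:ℝ) ≤ (2 ^ d) ^ θ * ((M * h) ^ d) ^ θ := by
      rw [← Real.mul_rpow (by positivity) (by positivity), ← mul_pow]
      apply Real.one_le_rpow _ hθ.le
      apply one_le_pow₀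
      linarith
    calc AQ d K ρ * (1 / h) ^ (d - 1) * h ≤ AQ d K ρ * (1 / h) ^ (d - 1) * 1 := by gcongr
      _ ≤ AQ d K ρ * (1 / h) ^ (d - 1) * ((2 ^ d) ^ θ * ((M * h) ^ d) ^ θ) := by gcongr
      _ = _ := by ring
  unfold rowB CR
  rw [h1]
  have hnb := nbC_pos d
  have hpi := Real.pi_pos
  calc nbC d * (K * δ) ^ d * (2 * Real.pi * K + K * (2 + C₁)) *
        (mulC d K ρ h * h + (1 / θ + 1) * (AQ d K ρ ^ (1 - θ) * ((1 / h) ^ (d - 1) * ((M * h) ^ d) ^ θ)))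
      ≤ nbC d * (K * δ) ^ d * (2 * Real.pi * K + K * (2 + C₁)) *
        (AQ d K ρ * (2 ^ d) ^ θ * ((1 / h) ^ (d - 1) * (((M * h) ^ d) ^ θ)) +
          (1 / θ + 1) * (AQ d K ρ ^ (1 - θ) * ((1 / h) ^ (d - 1) * ((M * h) ^ d) ^ θ))) := by gcongr
    _ = _ := by rw [mul_pow]; ring

variable {d : ℕ} {ι : Type*}

/-- The sum of the indicator functions of pieces of the tubes. -/
noncomputable def Fn (r : ℝ) (b e : ι → E (d + 1)) (I : Finset ι) (α β : ℝ) (y : E (d + 1)) : ℝ≥0∞ :=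
  ∑ i ∈ I, (nb r (b i) (e i) α β).indicator (fun _ => (1 : ℝ≥0∞)) y

theorem measurable_Fn (r : ℝ) (b e : ι → E (d + 1)) (I : Finset ι) (α β : ℝ) :
    Measurable (Fn r b e I α β) :=
  Finset.measurable_fun_sum _ fun i _ => measurable_const.indicator (measurableSet_nb _ _ _ _ _)

theorem int_Fn (r : ℝ) (b e : ι → E (d + 1)) (I : Finset ι) (α β : ℝ) :
    ∫⁻ y, Fn r b e I α β y = ∑ i ∈ I, volume (nb r (b i) (e i) α β) := by
  unfold Fn
  rw [lintegral_finsetSum _ fun i _ => measurable_const.indicator (measurableSet_nb _ _ _ _ _)]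
  refine Finset.sum_congr rfl fun _ _ => ?_
  rw [lintegral_indicator_const (measurableSet_nb _ _ _ _ _), one_mul]

/-- The constant in the `L^q` estimate for a piece. -/
noncomputable def CP (d : ℕ) (K ρ C₁ θ q : ℝ) : ℝ :=
  (nbC d * K ^ d * (1 + K * C₁)) ^ (2 - q) * (2 * CR d K ρ C₁ θ) ^ (q - 1)

theorem CR_pos (d : ℕ) {K ρ C₁ θ : ℝ} (hK : 0 < K) (hρ : 0 < ρ) (hC₁ : 0 ≤ C₁) (hθ : 0 < θ) :
    0 < CR d K ρ C₁ θ := by
  unfold CR AQ
  have := nbC_pos d
  have := Real.pi_pos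
  positivity

theorem CP_pos (d : ℕ) {K ρ C₁ θ q : ℝ} (hK : 0 < K) (hρ : 0 < ρ) (hC₁ : 0 ≤ C₁) (hθ : 0 < θ) :
    0 < CP d K ρ C₁ θ q := by
  unfold CP
  have := nbC_pos d
  have := CR_pos d hK hρ hC₁ hθ
  positivity

/-- **The `L^q` estimate for a piece.** -/
theorem lq_piece {ρ δ K h α β : ℝ} {u : E (d + 1)} {b e : ι → E (d + 1)} {I : Finset ι}
    (hd : 1 ≤ d) (H : Cell ρ δ u b e I) (hρ : 0 < ρ) (hρ1 : ρ ≤ 1) (hδ : 0 < δ)
    (hK : 1 ≤ K) (hr : 8 * (K * δ) ≤ ρ) (hh : 0 < h) (hh1 : h ≤ 1) (hα : -1 / 2 + h ≤ α)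
    (hβ : β ≤ 1 / 2 - h) (hαβ : β - α ≤ ρ / 8) (hαβ' : β - α ≤ h) {C₁ θ M q : ℝ} (hC₁ : 0 ≤ C₁)
    (hδh : δ ≤ C₁ * h) (hθ : 0 < θ) (hθ1 : θ ≤ 1) (hM : 0 < M) (hIN : (I.card : ℝ) ≤ M ^ d)
    (hMh : 1 / 2 ≤ M * h) (hq1 : 1 < q) (hq2 : q < 2) :
    ∫⁻ y, Fn (K * δ) b e I α β y ^ q ≤ ENNReal.ofReal (CP d K ρ C₁ θ q *
      (δ ^ d * (M ^ (d * q - 1) * (M * h) ^ (-(d * (q - 1) * (1 - θ) - 1))))) := by
  have hK0 : 0 < K := by linarith
  have hnb := nbC_pos d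
  have hCR := CR_pos d hK0 hρ hC₁ hθ
  refine (lyap volume (measurable_Fn _ _ _ _ _ _) hq1 hq2).trans ?_
  have h1 : ∫⁻ y, Fn (K * δ) b e I α β y ≤
      ENNReal.ofReal (nbC d * K ^ d * (1 + K * C₁) * (M ^ d * δ ^ d * ((M * h) / M))) := by
    rw [int_Fn]
    refine (Finset.sum_le_card_nsmul _ _ _ fun i hi =>
      vol_nb (by positivity) hh.le hαβ' (b i) (H.unit i hi)).trans ?_
    rw [nsmul_eq_mul, ← ENNReal.ofReal_natCast, ← ENNReal.ofReal_mul (Nat.cast_nonneg _)]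
    apply ENNReal.ofReal_le_ofReal
    have h2 : h + K * δ ≤ (1 + K * C₁) * h := by nlinarith
    calc (I.card : ℝ) * (nbC d * (K * δ) ^ d * (h + K * δ))
        ≤ M ^ d * (nbC d * (K * δ) ^ d * ((1 + K * C₁) * h)) := by gcongr
      _ = _ := by rw [mul_pow]; field_simp
  have h2 : ∫⁻ y, Fn (K * δ) b e I α β y ^ 2 ≤
      ENNReal.ofReal (2 * CR d K ρ C₁ θ * (M ^ d * (δ ^ d * ((1 / ((M * h) / M)) ^ (d - 1) *
        (((M * h) ^ d) ^ θ))))) := by
    refine (l2_est hd H hρ hρ1 hδ hK hr hh hh1 hα hβ hαβ hαβ' hC₁ hδh hθ hθ1 (N := M ^ d)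
      (by positivity) hIN).trans ?_
    apply ENNReal.ofReal_le_ofReal
    have h3 := rowB_le d hd (K := K) (ρ := ρ) (h := h) (C₁ := C₁) (θ := θ) (δ := δ) (M := M) hK0 hρ hh
      hh1 hC₁ hθ hδ hM hMh
    have e1 : M * h / M = h := by field_simp
    rw [e1]
    calc 2 * M ^ d * rowB d K ρ h C₁ θ (M ^ d) δ ≤ 2 * M ^ d *
          (CR d K ρ C₁ θ * (δ ^ d * ((1 / h) ^ (d - 1) * (((M * h) ^ d) ^ θ)))) := by gcongr
      _ = _ := by ring
  calc (∫⁻ y, Fn (K * δ) b e I α β y) ^ (2 - q) * (∫⁻ y, Fn (K * δ) b e I α β y ^ 2) ^ (q - 1)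
      ≤ ENNReal.ofReal (nbC d * K ^ d * (1 + K * C₁) * (M ^ d * δ ^ d * ((M * h) / M))) ^ (2 - q) *
        ENNReal.ofReal (2 * CR d K ρ C₁ θ * (M ^ d * (δ ^ d * ((1 / ((M * h) / M)) ^ (d - 1) *
        (((M * h) ^ d) ^ θ))))) ^ (q - 1) := by
        gcongr
    _ = _ := by
        rw [ENNReal.ofReal_rpow_of_pos (by positivity), ENNReal.ofReal_rpow_of_pos (by positivity),
          ← ENNReal.ofReal_mul (by positivity), expo hd hM (by positivity) hδ (by positivity)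
          (by positivity)]
        rfl

end Run7.h523.FT
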