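import Mathlib
import Pool.Agent.Run7.h523.FT.Lq

set_option autoImplicit false

/-!
# Scales, windows and cells
-/

open Set Metric MeasureTheory
open scoped InnerProductSpace ENNReal

namespace Run7.h523.FT

variable {d : ℕ} {ι : Type*}

/-- The constant in the bound for the number of tubes. -/
noncomputable def CT (d : ℕ) : ℝ := 6 * (d + 1) * (8 * d + 12) ^ (d - 1)

theorem one_le_CT (d : ℕ) : 1 ≤ CT d := by
  unfold CT
  have h1 : (1:ℝ) ≤ (8 * d + 12) ^ (d - 1) := by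
    apply one_le_pow₀
    have : (0:ℝ) ≤ d := Nat.cast_nonneg _
    linarith
  have h2 : (1:ℝ) ≤ 6 * (d + 1) := by
    have : (0:ℝ) ≤ d := Nat.cast_nonneg _
    linarith
  nlinarith

/-- The number of tubes. -/
theorem card_le (hd : 1 ≤ d) {u : E (d + 1)} (hu : ‖u‖ = 1) {e : ι → E (d + 1)} {I : Finset ι}
    {δ : ℝ} (hδ : 0 < δ) (hδ1 : δ ≤ 1) (unit : ∀ i ∈ I, ‖e i‖ = 1) (up : ∀ i ∈ I, 0 < ⟪u, e i⟫_ℝ)
    (sep : ∀ i ∈ I, ∀ j ∈ I, i ≠ j → δ ≤ ‖e i - e j‖)
    (lev : ∀ i ∈ I, ∀ j ∈ I, ⟪u, e i⟫_ℝ = ⟪u, e j⟫_ℝ ∨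
      δ ≤ |InnerProductGeometry.angle u (e i) - InnerProductGeometry.angle u (e j)|) :
    (I.card : ℝ) ≤ (CT d / δ) ^ d := by
  classical
  have hang : ∀ j ∈ I, InnerProductGeometry.angle u (e j) = Real.arccos ⟪u, e j⟫_ℝ := by
    intro j hj
    unfold InnerProductGeometry.angle
    rw [hu, unit j hj]
    simp
  set L := I.image (fun j => ⟪u, e j⟫_ℝ) with hL
  set B : ℝ := 2 * (d + 1) * ((4 * d + 6) * (2 / δ)) ^ (d - 1) with hB
  have hfib : ∀ c ∈ L, ((I.filter (fun j => ⟪u, e j⟫_ℝ = c)).card : ℝ) ≤ B := by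
    intro c _
    refine count_level hd hu (I.filter (fun j => ⟪u, e j⟫_ℝ = c)) e hδ (by linarith) ?_ ?_ ?_ (c := c)
    · intro i hi
      exact ⟨unit i (Finset.mem_filter.1 hi).1, (Finset.mem_filter.1 hi).2⟩
    · intro i hi j hj
      exact sep i (Finset.mem_filter.1 hi).1 j (Finset.mem_filter.1 hj).1
    · intro i hi j hj
      refine (norm_sub_le _ _).trans ?_
      rw [unit i (Finset.mem_filter.1 hi).1, unit j (Finset.mem_filter.1 hj).1]
      norm_num
  have hcard : (I.card : ℝ) = ∑ c ∈ L, ((I.filter (fun j => ⟪u, e j⟫_ℝ = c)).card : ℝ) := by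
    rw [← Nat.cast_sum]
    norm_cast
    exact Finset.card_eq_sum_card_image _ _
  have hLcard : (L.card : ℝ) ≤ 3 / δ := by
    have h1 : L.card ≤ (Finset.range (⌊2 / δ⌋₊ + 1)).card := by
      apply Finset.card_le_card_of_injOn (fun c => ⌊Real.arccos c / δ⌋₊)
      · intro c hc
        obtain ⟨j, hj, rfl⟩ := Finset.mem_image.1 (Finset.mem_coe.1 hc)
        simp only [Finset.coe_range, mem_Iio]
        rw [Nat.lt_succ_iff]
        apply Nat.floor_le_floor
        gcongr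
        have h2 : Real.arccos ⟪u, e j⟫_ℝ ≤ Real.pi / 2 := by
          rw [Real.arccos_le_pi_div_two]; exact (up j hj).le
        linarith [Real.pi_le_four]
      · intro c hc c' hc' hcc
        by_contra hne
        obtain ⟨j, hj, rfl⟩ := Finset.mem_image.1 (Finset.mem_coe.1 hc)
        obtain ⟨j', hj', rfl⟩ := Finset.mem_image.1 (Finset.mem_coe.1 hc')
        rcases lev j hj j' hj' with h2 | h2
        · exact hne h2
        · rw [hang j hj, hang j' hj'] at h2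
          simp only at hcc
          have p1 : 0 ≤ Real.arccos ⟪u, e j⟫_ℝ / δ := div_nonneg (Real.arccos_nonneg _) hδ.le
          have p2 : 0 ≤ Real.arccos ⟪u, e j'⟫_ℝ / δ := div_nonneg (Real.arccos_nonneg _) hδ.le
          have a1 := Nat.floor_le p1
          have a2 := Nat.lt_floor_add_one (Real.arccos ⟪u, e j⟫_ℝ / δ)
          have b1 := Nat.floor_le p2
          have b2 := Nat.lt_floor_add_one (Real.arccos ⟪u, e j'⟫_ℝ / δ)
          rw [hcc] at a1 a2
          have h3 : |Real.arccos ⟪u, e j⟫_ℝ / δ - Real.arccos ⟪u, e j'⟫_ℝ / δ| < 1 := by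
            rw [abs_lt]; constructor <;> linarith
          rw [← sub_div, abs_div, abs_of_pos hδ, div_lt_one hδ] at h3
          linarith
    rw [Finset.card_range] at h1
    have h2 : (L.card : ℝ) ≤ ⌊2 / δ⌋₊ + 1 := by exact_mod_cast h1
    have h3 := Nat.floor_le (by positivity : (0:ℝ) ≤ 2 / δ)
    have h4 : 1 ≤ 1 / δ := by rw [le_div_iff₀ hδ]; linarith
    have h5 : 3 / δ = 2 / δ + 1 / δ := by ring
    rw [h5]
    linarith
  have hB0 : 0 ≤ B := by positivity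
  calc (I.card : ℝ) ≤ L.card * B := by
        rw [hcard]
        refine (Finset.sum_le_card_nsmul _ _ _ hfib).trans_eq ?_
        rw [nsmul_eq_mul]
    _ ≤ 3 / δ * B := by gcongr
    _ = CT d / δ ^ d := by
        obtain ⟨m, rfl⟩ : ∃ m, d = m + 1 := ⟨d - 1, by omega⟩
        rw [hB]
        unfold CT
        rw [Nat.add_sub_cancel]
        have e1 : ((4 * ((m + 1 : ℕ) : ℝ) + 6) * (2 / δ)) = (8 * ((m + 1 : ℕ) : ℝ) + 12) / δ := by ring
        rw [e1, div_pow, pow_succ]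
        field_simp
        ring
    _ ≤ (CT d / δ) ^ d := by
        rw [div_pow]
        gcongr
        exact le_self_pow₀ (one_le_CT d) (by omega)

/-- Finitely many cells of small diameter for the directions. -/
theorem exists_cells (n : ℕ) {ρ : ℝ} (hρ : 0 < ρ) : ∃ (W : ℕ) (c : E n → Fin (W + 1)),
    ∀ x y, ‖x‖ = 1 → ‖y‖ = 1 → c x = c y → ‖x - y‖ ≤ ρ := by
  classical
  obtain ⟨t, -, htf, hcov⟩ := (isCompact_closedBall (0 : E n) 1).finite_cover_balls
    (e := ρ / 2) (by positivity)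
  set T := htf.toFinset with hT
  set f : T ≃ Fin T.card := T.equivFin with hf
  have hex : ∀ x : E n, ∃ z, (‖x‖ = 1 → z ∈ T ∧ ‖x - z‖ ≤ ρ / 2) := by
    intro x
    by_cases hx : ‖x‖ = 1
    · have h1 : x ∈ closedBall (0 : E n) 1 := by rw [mem_closedBall, dist_zero_right]; exact hx.le
      obtain ⟨z, hz, hxz⟩ := mem_iUnion₂.1 (hcov h1)
      refine ⟨z, fun _ => ⟨htf.mem_toFinset.2 hz, ?_⟩⟩
      rw [mem_ball, dist_eq_norm] at hxz
      exact hxz.le
    · exact ⟨0, fun h => absurd h hx⟩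
  choose z hz using hex
  refine ⟨T.card, fun x => if h : z x ∈ T then (f ⟨z x, h⟩).castSucc else Fin.last _, ?_⟩
  intro x y hx hy hxy
  have h1 := hz x hx
  have h2 := hz y hy
  simp only [h1.1, h2.1, dif_pos] at hxy
  have h3 := f.injective (Fin.castSucc_injective _ hxy)
  have h4 : z x = z y := congrArg Subtype.val h3
  have e1 : x - y = (x - z x) - (y - z y) := by rw [h4]; abel
  rw [e1]
  refine (norm_sub_le _ _).trans ?_
  linarith [h1.2, h2.2]

/-- Dyadic scales. -/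
theorem exists_scale {K : ℕ} {t : ℝ} (h1 : (1 / 2 : ℝ) ^ K < t) (h2 : t ≤ 1 / 2) :
    ∃ k ∈ Finset.Icc 2 K, (1 / 2 : ℝ) ^ k ≤ t ∧ t ≤ 2 * (1 / 2 : ℝ) ^ k := by
  classical
  have hK2 : 2 ≤ K := by
    by_contra hcon
    have h3 : K ≤ 1 := by omega
    have h4 : (1 / 2 : ℝ) ^ 1 ≤ (1 / 2) ^ K := pow_le_pow_of_le_one (by norm_num) (by norm_num) h3
    linarith
  have hex : ∃ k, (1 / 2 : ℝ) ^ (k + 2) ≤ t := by
    obtain ⟨m, rfl⟩ : ∃ m, K = m + 2 := ⟨K - 2, by omega⟩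
    exact ⟨m, h1.le⟩
  set m := Nat.find hex with hm
  have hm1 : (1 / 2 : ℝ) ^ (m + 2) ≤ t := Nat.find_spec hex
  have hmK : m + 2 ≤ K := by
    have : m ≤ K - 2 := Nat.find_min' hex (by
      have : K - 2 + 2 = K := by omega
      rw [this]; exact h1.le)
    omega
  refine ⟨m + 2, Finset.mem_Icc.2 ⟨by omega, hmK⟩, hm1, ?_⟩
  rcases Nat.eq_zero_or_pos m with h | h
  · rw [h]; norm_num; linarith
  · have h3 : ¬ (1 / 2 : ℝ) ^ (m - 1 + 2) ≤ t := Nat.find_min hex (by omega)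
    have h4 : m - 1 + 2 = m + 1 := by omega
    rw [h4] at h3
    have h5 : 2 * (1 / 2 : ℝ) ^ (m + 2) = (1 / 2) ^ (m + 1) := by rw [pow_succ (1/2 : ℝ) (m + 1)]; ring
    rw [h5]
    exact (not_le.1 h3).le

/-- Windows. -/
theorem exists_window {W : ℕ} (hW : 0 < W) {α₀ h s : ℝ} (hh : 0 < h) (h1 : α₀ ≤ s)
    (h2 : s ≤ α₀ + h) : ∃ w ∈ Finset.range W, α₀ + w * (h / W) ≤ s ∧ s ≤ α₀ + w * (h / W) + h / W := by
  have hWr : (0:ℝ) < W := by exact_mod_cast hW
  set η := h / W with hη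
  have hη0 : 0 < η := by positivity
  have hx0 : 0 ≤ (s - α₀) / η := div_nonneg (by linarith) hη0.le
  have ha := Nat.floor_le hx0
  have hb := Nat.lt_floor_add_one ((s - α₀) / η)
  rw [le_div_iff₀ hη0] at ha
  rw [div_lt_iff₀ hη0] at hb
  by_cases hlt : ⌊(s - α₀) / η⌋₊ < W
  · exact ⟨_, Finset.mem_range.2 hlt, by linarith, by linarith⟩
  · refine ⟨W - 1, Finset.mem_range.2 (by omega), ?_, ?_⟩
    · have h3 : (W : ℝ) ≤ ⌊(s - α₀) / η⌋₊ := by exact_mod_cast not_lt.1 hlt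
      have h4 : ((W - 1 : ℕ) : ℝ) ≤ W := by exact_mod_cast Nat.sub_le _ _
      have h5 : ((W - 1 : ℕ) : ℝ) * η ≤ (⌊(s - α₀) / η⌋₊ : ℝ) * η := by
        gcongr
        exact_mod_cast h4.trans h3
      linarith
    · have h3 : ((W - 1 : ℕ) : ℝ) = W - 1 := by
        rw [Nat.cast_sub (by omega)]; simp
      rw [h3]
      have h4 : (W : ℝ) * η = h := by rw [hη]; field_simp
      nlinarith

end Run7.h523.FT
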