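import Mathlib
import Pool.Agent.Run7.h523.FT.Scales

set_option autoImplicit false

/-!
# The tube inequality for front families, `q < 2`
-/

open Set Metric MeasureTheory
open scoped InnerProductSpace ENNReal

namespace Run7.h523.FT

variable {d : ℕ} {ι : Type*}

/-- A front family; locality scale `ρ`. -/
structure Front (ρ δ : ℝ) (u : E (d + 1)) (b e : ι → E (d + 1)) (I : Finset ι) : Prop where
  nu : ‖u‖ = 1
  unit : ∀ i ∈ I, ‖e i‖ = 1
  up : ∀ i ∈ I, 0 < ⟪u, e i⟫_ℝ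
  sep : ∀ i ∈ I, ∀ j ∈ I, i ≠ j → δ ≤ ‖e i - e j‖
  lev : ∀ i ∈ I, ∀ j ∈ I, ⟪u, e i⟫_ℝ = ⟪u, e j⟫_ℝ ∨
    δ ≤ |InnerProductGeometry.angle u (e i) - InnerProductGeometry.angle u (e j)|
  front : ∀ i ∈ I, ∀ j ∈ I, ⟪u, e i⟫_ℝ = ⟪u, e j⟫_ℝ → ‖e i - e j‖ ≤ ρ →
    ∀ s ∈ Icc (-1 / 2 : ℝ) (1 / 2), ∀ s' ∈ Icc (-1 / 2 : ℝ) (1 / 2),
      ‖(b i + s • e i) - (b j + s' • e j)‖ ≤ ρ →
      |⟪u, (b i + s • e i) - (b j + s' • e j)⟫_ℝ| ≤
        ⟪u, e i⟫_ℝ * ‖(b i + s • e i) - (b j + s' • e j)‖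

/-- The windows. -/
noncomputable def wA (W k w : ℕ) (σ : Bool) : ℝ :=
  (if σ then 1 / 2 - 2 * (1 / 2 : ℝ) ^ k else -1 / 2 + (1 / 2 : ℝ) ^ k) + w * ((1 / 2 : ℝ) ^ k / W)

noncomputable def wB (W k w : ℕ) (σ : Bool) : ℝ := wA W k w σ + (1 / 2 : ℝ) ^ k / W

/-- The tubes are covered by their tails and by the windows. -/
theorem Fn_le {r : ℝ} {b e : ι → E (d + 1)} {I : Finset ι} {κ : Type*} [Fintype κ] [DecidableEq κ]
    (c : E (d + 1) → κ) {K W : ℕ} (hW : 0 < W) (y : E (d + 1)) :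
    Fn r b e I (-1 / 2) (1 / 2) y ≤
      Fn r b e I (-1 / 2) (-1 / 2 + (1 / 2) ^ K) y + Fn r b e I (1 / 2 - (1 / 2) ^ K) (1 / 2) y +
      ∑ p ∈ (Finset.Icc 2 K ×ˢ Finset.range W) ×ˢ (Finset.univ ×ˢ Finset.univ : Finset (Bool × κ)),
        Fn r b e (I.filter (fun i => c (e i) = p.2.2)) (wA W p.1.1 p.1.2 p.2.1)
          (wB W p.1.1 p.1.2 p.2.1) y := by
  unfold Fn
  set P := (Finset.Icc 2 K ×ˢ Finset.range W) ×ˢ (Finset.univ ×ˢ Finset.univ : Finset (Bool × κ)) with hP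
  have h1 : ∑ p ∈ P, ∑ i ∈ I.filter (fun i => c (e i) = p.2.2),
      (nb r (b i) (e i) (wA W p.1.1 p.1.2 p.2.1) (wB W p.1.1 p.1.2 p.2.1)).indicator
        (fun _ => (1 : ℝ≥0∞)) y = ∑ i ∈ I, ∑ p ∈ P, if c (e i) = p.2.2 then
      (nb r (b i) (e i) (wA W p.1.1 p.1.2 p.2.1) (wB W p.1.1 p.1.2 p.2.1)).indicator
        (fun _ => (1 : ℝ≥0∞)) y else 0 := by
    simp_rw [Finset.sum_filter]
    rw [Finset.sum_comm]
  rw [h1, ← Finset.sum_add_distrib, ← Finset.sum_add_distrib]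
  refine Finset.sum_le_sum fun i _ => ?_
  by_cases hy : y ∈ nb r (b i) (e i) (-1 / 2) (1 / 2)
  · rw [indicator_of_mem hy]
    obtain ⟨s, hs, hys⟩ := hy
    by_cases ht1 : s ≤ -1 / 2 + (1 / 2) ^ K
    · rw [indicator_of_mem (show y ∈ nb r (b i) (e i) (-1 / 2) (-1 / 2 + (1 / 2) ^ K) from
        ⟨s, ⟨hs.1, ht1⟩, hys⟩), add_assoc]
      exact le_self_add
    by_cases ht2 : 1 / 2 - (1 / 2) ^ K ≤ s
    · rw [indicator_of_mem (show y ∈ nb r (b i) (e i) (1 / 2 - (1 / 2) ^ K) (1 / 2) from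
        ⟨s, ⟨ht2, hs.2⟩, hys⟩), add_right_comm]
      exact le_add_self
    push Not at ht1 ht2
    obtain ⟨k, hk, w, hw, σ, h3, h4⟩ : ∃ k ∈ Finset.Icc 2 K, ∃ w ∈ Finset.range W, ∃ σ : Bool,
        wA W k w σ ≤ s ∧ s ≤ wB W k w σ := by
      rcases le_total s 0 with h0 | h0
      · obtain ⟨k, hk, hk1, hk2⟩ := exists_scale (K := K) (t := s + 1 / 2) (by linarith) (by linarith)
        obtain ⟨w, hw, hw1, hw2⟩ := exists_window hW (α₀ := -1 / 2 + (1 / 2 : ℝ) ^ k)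
          (h := (1 / 2 : ℝ) ^ k) (s := s) (by positivity) (by linarith) (by linarith)
        exact ⟨k, hk, w, hw, false, by simpa [wA] using hw1, by simpa [wA, wB] using hw2⟩
      · obtain ⟨k, hk, hk1, hk2⟩ := exists_scale (K := K) (t := 1 / 2 - s) (by linarith) (by linarith)
        obtain ⟨w, hw, hw1, hw2⟩ := exists_window hW (α₀ := 1 / 2 - 2 * (1 / 2 : ℝ) ^ k)
          (h := (1 / 2 : ℝ) ^ k) (s := s) (by positivity) (by linarith) (by linarith)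
        exact ⟨k, hk, w, hw, true, by simpa [wA] using hw1, by simpa [wA, wB] using hw2⟩
    refine le_trans ?_ le_add_self
    have hmem : ((k, w), (σ, c (e i))) ∈ P := by
      rw [hP]
      simp only [Finset.mem_product, Finset.mem_univ, and_true]
      exact ⟨hk, hw⟩
    refine le_trans ?_ (Finset.single_le_sum (fun _ _ => zero_le) hmem)
    rw [if_pos rfl, indicator_of_mem (show y ∈ nb r (b i) (e i) (wA W k w σ) (wB W k w σ) from
      ⟨s, ⟨h3, h4⟩, hys⟩)]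
  · rw [indicator_of_notMem hy]
    exact zero_le

theorem geom_scales {g M : ℝ} (hg : 0 < g) {K : ℕ} (hK : 1 / 2 ≤ M * (1 / 2 : ℝ) ^ K) :
    ∑ k ∈ Finset.Icc 2 K, (M * (1 / 2 : ℝ) ^ k) ^ (-g) ≤ 2 ^ g / (1 - (1 / 2 : ℝ) ^ g) := by
  set x : ℝ := (1 / 2 : ℝ) ^ g with hx
  have hx0 : 0 < x := by positivity
  have hx1 : x < 1 := Real.rpow_lt_one (by norm_num) (by norm_num) hg
  have h1 : ∀ k ∈ Finset.Icc 2 K, (M * (1 / 2 : ℝ) ^ k) ^ (-g) ≤ 2 ^ g * x ^ (K - k) := by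
    intro k hk
    have hkK := (Finset.mem_Icc.1 hk).2
    have h2 : (1 / 2) * 2 ^ (K - k) ≤ M * (1 / 2 : ℝ) ^ k := by
      obtain ⟨m, rfl⟩ : ∃ m, K = k + m := ⟨K - k, by omega⟩
      rw [Nat.add_sub_cancel_left]
      rw [pow_add, ← mul_assoc] at hK
      have h3 : (1 / 2 : ℝ) ^ m * 2 ^ m = 1 := by rw [← mul_pow]; norm_num
      calc (1 / 2 : ℝ) * 2 ^ m ≤ (M * (1 / 2) ^ k * (1 / 2) ^ m) * 2 ^ m := by gcongr
        _ = M * (1 / 2) ^ k * ((1 / 2 : ℝ) ^ m * 2 ^ m) := by ring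
        _ = _ := by rw [h3, mul_one]
    calc (M * (1 / 2 : ℝ) ^ k) ^ (-g) ≤ ((1 / 2) * 2 ^ (K - k)) ^ (-g) :=
          Real.rpow_le_rpow_of_nonpos (by positivity) h2 (by linarith)
      _ = 2 ^ g * x ^ (K - k) := by
          rw [Real.mul_rpow (by norm_num) (by positivity), hx, ← Real.rpow_natCast, ← Real.rpow_natCast,
            ← Real.rpow_mul (by norm_num), ← Real.rpow_mul (by norm_num), one_div,
            Real.inv_rpow (by norm_num), Real.inv_rpow (by norm_num), ← Real.rpow_neg (by norm_num),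
            ← Real.rpow_neg (by norm_num), neg_neg]
          congr 2
          ring
  refine (Finset.sum_le_sum h1).trans ?_
  rw [← Finset.mul_sum, div_eq_mul_inv]
  gcongr
  have h3 : ∑ k ∈ Finset.Icc 2 K, x ^ (K - k) ≤ ∑ j ∈ Finset.range (K + 1), x ^ j := by
    have h4 : ∑ k ∈ Finset.Icc 2 K, x ^ (K - k) = ∑ j ∈ (Finset.Icc 2 K).image (fun k => K - k), x ^ j := by
      rw [Finset.sum_image]
      intro a ha a' ha' h
      simp only [Finset.coe_Icc, mem_Icc] at ha ha'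
      simp only at h
      omega
    rw [h4]
    apply Finset.sum_le_sum_of_subset_of_nonneg
    · intro j hj
      obtain ⟨k, hk, rfl⟩ := Finset.mem_image.1 hj
      rw [Finset.mem_range]
      omega
    · intro i _ _
      positivity
  refine h3.trans ?_
  rw [← one_div, le_div_iff₀ (by linarith)]
  have h6 := geom_sum_mul_neg x (K + 1)
  rw [h6]
  have : 0 < x ^ (K + 1) := by positivity
  linarith

theorem eLp_of_int {F : E (d + 1) → ℝ≥0∞} {q A : ℝ} (hq : 0 < q) (hA : 0 ≤ A)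
    (h : ∫⁻ y, F y ^ q ≤ ENNReal.ofReal A) :
    eLpNorm F (ENNReal.ofReal q) volume ≤ ENNReal.ofReal (A ^ (1 / q)) := by
  rw [eLpNorm_eq_lintegral_rpow_enorm_toReal (by simpa using hq) ENNReal.ofReal_ne_top,
    ENNReal.toReal_ofReal hq.le]
  simp only [enorm_eq_self]
  rw [← ENNReal.ofReal_rpow_of_nonneg hA (by positivity)]
  gcongr

theorem Fn_le_card (r : ℝ) (b e : ι → E (d + 1)) (I : Finset ι) (α β : ℝ) (y : E (d + 1)) :
    Fn r b e I α β y ≤ (I.card : ℝ≥0∞) := by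
  unfold Fn
  refine (Finset.sum_le_card_nsmul _ _ 1 fun i _ => indicator_le_self' (fun _ _ => zero_le) y).trans_eq ?_
  simp

theorem int_pow_le (r : ℝ) (b e : ι → E (d + 1)) (I : Finset ι) (α β : ℝ) {q : ℝ} (hq : 1 ≤ q) :
    ∫⁻ y, Fn r b e I α β y ^ q ≤
      (I.card : ℝ≥0∞) ^ (q - 1) * ∑ i ∈ I, volume (nb r (b i) (e i) α β) := by
  rw [← int_Fn, ← lintegral_const_mul _ (measurable_Fn _ _ _ _ _ _)]
  apply lintegral_mono
  intro y
  simp only
  calc Fn r b e I α β y ^ q = Fn r b e I α β y ^ (q - 1) * Fn r b e I α β y ^ (1 : ℝ) := by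
        rw [← ENNReal.rpow_add_of_nonneg _ _ (by linarith) (by norm_num)]
        congr 1
        ring
    _ ≤ _ := by
        rw [ENNReal.rpow_one]
        gcongr
        exact Fn_le_card _ _ _ _ _ _ _

/-- Short pieces. -/
theorem short_est {δ K : ℝ} {b e : ι → E (d + 1)} {I : Finset ι} (hδ : 0 < δ) (hK : 0 < K)
    (unit : ∀ i ∈ I, ‖e i‖ = 1) {α β D M q A : ℝ} (hM : 0 < M) (hIN : (I.card : ℝ) = M ^ d)
    (hαβ : β - α ≤ D) (hD : 0 ≤ D) (hq : 1 ≤ q) (hA : D + K * δ ≤ A) :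
    eLpNorm (Fn (K * δ) b e I α β) (ENNReal.ofReal q) volume ≤
      ENNReal.ofReal ((nbC d * K ^ d * A * (δ ^ d * (M ^ (d * q)))) ^ (1 / q)) := by
  have hnb := nbC_pos d
  have hA0 : 0 < A := by
    have : 0 < K * δ := by positivity
    linarith
  refine eLp_of_int (by linarith) (by positivity) ?_
  refine (int_pow_le _ _ _ _ _ _ hq).trans ?_
  have h1 : ∑ i ∈ I, volume (nb (K * δ) (b i) (e i) α β) ≤
      ENNReal.ofReal ((M ^ d) * (nbC d * (K * δ) ^ d * A)) := by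
    refine (Finset.sum_le_card_nsmul _ _ _ fun i hi =>
      vol_nb (by positivity) hD hαβ (b i) (unit i hi)).trans ?_
    rw [nsmul_eq_mul, ← ENNReal.ofReal_natCast, ← ENNReal.ofReal_mul (Nat.cast_nonneg _)]
    apply ENNReal.ofReal_le_ofReal
    rw [hIN]
    gcongr
  have h2 : (I.card : ℝ≥0∞) ^ (q - 1) = ENNReal.ofReal ((M ^ d) ^ (q - 1)) := by
    rw [← ENNReal.ofReal_natCast, hIN, ENNReal.ofReal_rpow_of_pos (by positivity)]
  rw [h2]
  calc ENNReal.ofReal ((M ^ d) ^ (q - 1)) * ∑ i ∈ I, volume (nb (K * δ) (b i) (e i) α β)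
      ≤ ENNReal.ofReal ((M ^ d) ^ (q - 1)) * ENNReal.ofReal ((M ^ d) * (nbC d * (K * δ) ^ d * A)) := by
        gcongr
    _ = _ := by
        rw [← ENNReal.ofReal_mul (by positivity)]
        congr 1
        have e1 : (M ^ d : ℝ) ^ (q - 1) * M ^ d = M ^ (d * q) := by
          rw [← Real.rpow_natCast, ← Real.rpow_mul hM.le, ← Real.rpow_add hM]
          congr 1
          ring
        rw [← e1, mul_pow]
        ring

end Run7.h523.FT
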