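import Mathlib
import Pool.Agent.Run7.h523.FT.Main

set_option autoImplicit false

/-!
# The tube inequality for front families
-/

open Set Metric MeasureTheory
open scoped InnerProductSpace ENNReal

namespace Run7.h523.FT

variable {d : ℕ}

theorem Front.mono_rho {ι : Type*} {ρ ρ' δ : ℝ} {u : E (d + 1)} {b e : ι → E (d + 1)} {I : Finset ι}
    (h : Front ρ δ u b e I) (hρ : ρ' ≤ ρ) : Front ρ' δ u b e I :=
  ⟨h.nu, h.unit, h.up, h.sep, h.lev, fun i hi j hj h1 h2 s hs s' hs' h3 =>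
    h.front i hi j hj h1 (h2.trans hρ) s hs s' hs' (h3.trans hρ)⟩

theorem main_lt (hd : 1 ≤ d) {q ρ K : ℝ} (hq : ((d : ℝ) + 1) / d < q) (hq2 : q < 2) (hρ : 0 < ρ)
    (hρ1 : ρ ≤ 1) (hK : 1 ≤ K) : ∃ C : ℝ, 0 < C ∧ ∀ (δ : ℝ), 0 < δ → δ ≤ 1 →
      ∀ (ι : Type) (u : E (d + 1)) (b e : ι → E (d + 1)) (I : Finset ι), Front ρ δ u b e I →
      eLpNorm (Fn (K * δ) b e I (-1 / 2) (1 / 2)) (ENNReal.ofReal q) volume ≤
        ENNReal.ofReal (C * (δ ^ (d / q) * (I.card : ℝ) ^ (1 - 1 / (q * d)))) := by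
  classical
  have hd0 : (0:ℝ) < d := by exact_mod_cast hd
  have hK0 : 0 < K := by linarith
  have hq1 : 1 < q := by
    have : 1 < ((d : ℝ) + 1) / d := by rw [lt_div_iff₀ hd0]; linarith
    linarith
  have hq0 : 0 < q := by linarith
  have hdq : 1 < d * (q - 1) := by
    rw [div_lt_iff₀ hd0] at hq
    linarith
  have hdq0 : 0 < d * (q - 1) := by linarith
  set θ : ℝ := (1 - 1 / (d * (q - 1))) / 2 with hθ
  have h1dq : 1 / (d * (q - 1)) < 1 := by rw [div_lt_one hdq0]; exact hdq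
  have h1dq0 : 0 < 1 / (d * (q - 1)) := by positivity
  have hθ0 : 0 < θ := by rw [hθ]; linarith
  have hθ1 : θ ≤ 1 := by rw [hθ]; linarith
  set γ : ℝ := d * (q - 1) * (1 - θ) - 1 with hγ
  have hγ0 : 0 < γ := by
    have : γ = (d * (q - 1) - 1) / 2 := by
      have h2 : d * (q - 1) * (1 / (d * (q - 1))) = 1 := mul_one_div_cancel hdq0.ne'
      rw [hγ, hθ]
      linear_combination (1 / 2) * h2
    rw [this]; linarith
  set g : ℝ := γ / q with hg
  have hg0 : 0 < g := by positivity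
  set C₁ : ℝ := 2 * CT d with hC₁
  have hCT := one_le_CT d
  have hC₁0 : 0 ≤ C₁ := by linarith
  have hnb := nbC_pos d
  obtain ⟨m, c, hc⟩ := exists_cells (d + 1) hρ
  set W : ℕ := ⌈8 / ρ⌉₊ with hW
  have hW8 : 8 / ρ ≤ W := Nat.le_ceil _
  have hW0 : 0 < W := Nat.ceil_pos.2 (by positivity)
  have hWr : (0:ℝ) < W := by exact_mod_cast hW0
  set G : ℝ := 2 ^ g / (1 - (1 / 2 : ℝ) ^ g) with hG
  have hG0 : 0 < G := by
    have : (1 / 2 : ℝ) ^ g < 1 := Real.rpow_lt_one (by norm_num) (by norm_num) hg0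
    exact div_pos (by positivity) (by linarith)
  set A₁ : ℝ := (nbC d * K ^ d * (1 + K * C₁)) ^ (1 / q) with hA₁
  have hA₁0 : 0 < A₁ := by positivity
  set A₂ : ℝ := CP d K ρ C₁ θ q ^ (1 / q) with hA₂
  have hCP := CP_pos d (K := K) (ρ := ρ) (C₁ := C₁) (θ := θ) (q := q) hK0 hρ hC₁0 hθ0
  have hA₂0 : 0 < A₂ := by positivity
  set Nm : ℝ := (8 * K * CT d / ρ) ^ d with hNm
  have hNm0 : 0 < Nm := by positivity
  set A₃ : ℝ := (nbC d * K ^ d * (1 + K)) ^ (1 / q) * Nm with hA₃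
  have hA₃0 : 0 < A₃ := by positivity
  refine ⟨2 * A₁ + (2 * (m + 1) * W) * (A₂ * G) + A₃, by positivity, ?_⟩
  intro δ hδ hδ1 ι u b e I H
  rcases I.eq_empty_or_nonempty with hI | hI
  · have : Fn (K * δ) b e I (-1 / 2) (1 / 2) = 0 := by
      funext y; simp [Fn, hI]
    rw [this, eLpNorm_zero]
    exact zero_le
  obtain ⟨N, hN⟩ : ∃ N : ℝ, (I.card : ℝ) = N := ⟨_, rfl⟩
  have hN1 : (1:ℝ) ≤ N := by rw [← hN]; exact_mod_cast hI.card_pos
  have hN0 : 0 < N := by linarith
  obtain ⟨M, hM1, hMN⟩ : ∃ M : ℝ, 1 ≤ M ∧ N = M ^ d := by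
    refine ⟨N ^ (1 / (d : ℝ)), Real.one_le_rpow hN1 (by positivity), ?_⟩
    rw [← Real.rpow_natCast, ← Real.rpow_mul hN0.le]
    rw [one_div_mul_cancel hd0.ne', Real.rpow_one]
  have hM0 : 0 < M := by linarith
  rw [hN]
  have hMδ : M ≤ CT d / δ := by
    have h1 := card_le hd H.nu hδ hδ1 H.unit H.up H.sep H.lev
    rw [hN, hMN] at h1
    exact (pow_le_pow_iff_left₀ hM0.le (by positivity) (by omega)).1 h1
  have hfin : (δ ^ d * M ^ (d * q - 1)) ^ (1 / q) = δ ^ ((d:ℝ) / q) * N ^ (1 - 1 / (q * d)) := by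
    rw [Real.mul_rpow (by positivity) (by positivity), hMN, ← Real.rpow_natCast, ← Real.rpow_natCast,
      ← Real.rpow_mul hδ.le, ← Real.rpow_mul hM0.le, ← Real.rpow_mul hM0.le]
    congr 2
    · ring
    · field_simp
  set T : ℝ := δ ^ ((d:ℝ) / q) * N ^ (1 - 1 / (q * d)) with hT
  have hT0 : 0 < T := by positivity
  rcases le_or_gt (8 * (K * δ)) ρ with hr | hr
  · obtain ⟨n₀, hn1, hn2⟩ := exists_nat_pow_near hM1 (one_lt_two : (1:ℝ) < 2)
    set Kx : ℕ := n₀ + 1 with hKx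
    have h2K : (1 / 2 : ℝ) ^ Kx * 2 ^ Kx = 1 := by rw [← mul_pow]; norm_num
    have hMK : 1 / 2 ≤ M * (1 / 2 : ℝ) ^ Kx := by
      have h3 : (2:ℝ) ^ Kx ≤ 2 * M := by rw [hKx, pow_succ]; linarith
      have h4 : (0:ℝ) < (1 / 2) ^ Kx := by positivity
      nlinarith
    have hMK2 : (1 / 2 : ℝ) ^ Kx ≤ 1 / M := by
      rw [le_div_iff₀ hM0]
      have h4 : (0:ℝ) < (1 / 2) ^ Kx := by positivity
      nlinarith
    have hδK : δ ≤ C₁ * (1 / 2 : ℝ) ^ Kx := by
      rw [le_div_iff₀ hδ] at hMδ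
      have h4 : (0:ℝ) < (1 / 2) ^ Kx := by positivity
      have h5 : δ * 1 ≤ δ * (2 * (M * (1 / 2 : ℝ) ^ Kx)) := by gcongr; linarith
      have h6 : δ * (2 * (M * (1 / 2 : ℝ) ^ Kx)) = 2 * (M * δ) * (1 / 2 : ℝ) ^ Kx := by ring
      rw [hC₁]
      nlinarith
    have htail : ∀ α β : ℝ, β - α ≤ (1 / 2 : ℝ) ^ Kx →
        eLpNorm (Fn (K * δ) b e I α β) (ENNReal.ofReal q) volume ≤ ENNReal.ofReal (A₁ * T) := by
      intro α β hαβ
      refine (short_est hδ hK0 H.unit (M := M) (q := q) (A := (1 + K * C₁) * (1 / M)) hM0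
        (hN.trans hMN) hαβ
        (by positivity) hq1.le ?_).trans (ENNReal.ofReal_le_ofReal (le_of_eq ?_))
      · have h5 : K * δ ≤ K * (C₁ * (1 / M)) := by
          gcongr
          exact hδK.trans (by gcongr)
        nlinarith
      · have h5 : nbC d * K ^ d * ((1 + K * C₁) * (1 / M)) * (δ ^ d * M ^ (d * q)) =
            (nbC d * K ^ d * (1 + K * C₁)) * (δ ^ d * M ^ (d * q - 1)) := by
          rw [Real.rpow_sub hM0, Real.rpow_one]
          field_simp
        rw [h5, Real.mul_rpow (by positivity) (by positivity), hfin]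
    have hpiece : ∀ p ∈ (Finset.Icc 2 Kx ×ˢ Finset.range W) ×ˢ
        (Finset.univ ×ˢ Finset.univ : Finset (Bool × Fin (m + 1))),
        eLpNorm (Fn (K * δ) b e (I.filter (fun i => c (e i) = p.2.2)) (wA W p.1.1 p.1.2 p.2.1)
          (wB W p.1.1 p.1.2 p.2.1)) (ENNReal.ofReal q) volume ≤
        ENNReal.ofReal (A₂ * T * (M * (1 / 2 : ℝ) ^ p.1.1) ^ (-g)) := by
      rintro ⟨⟨k, w⟩, ⟨σ, x⟩⟩ hp
      simp only [Finset.mem_product, Finset.mem_univ, and_true, Finset.mem_Icc, Finset.mem_range]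
        at hp
      obtain ⟨⟨hk2, hkK⟩, hw⟩ := hp
      simp only
      set h : ℝ := (1 / 2 : ℝ) ^ k with hh
      have hh0 : 0 < h := by positivity
      have hh4 : h ≤ 1 / 4 := by
        calc h ≤ (1 / 2 : ℝ) ^ 2 := pow_le_pow_of_le_one (by norm_num) (by norm_num) hk2
          _ = _ := by norm_num
      have hhK : (1 / 2 : ℝ) ^ Kx ≤ h := pow_le_pow_of_le_one (by norm_num) (by norm_num) hkK
      have hcell : Cell ρ δ u b e (I.filter (fun i => c (e i) = x)) := by
        have hm : ∀ i ∈ I.filter (fun i => c (e i) = x), i ∈ I := fun i hi => (Finset.mem_filter.1 hi).1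
        refine ⟨H.nu, fun i hi => H.unit i (hm i hi), fun i hi => H.up i (hm i hi),
          fun i hi j hj => H.sep i (hm i hi) j (hm j hj), fun i hi j hj => H.lev i (hm i hi) j (hm j hj),
          fun i hi j hj hij => H.front i (hm i hi) j (hm j hj) hij ?_⟩
        exact hc _ _ (H.unit i (hm i hi)) (H.unit j (hm j hj))
          ((Finset.mem_filter.1 hi).2.trans (Finset.mem_filter.1 hj).2.symm)
      have hhW : h / W ≤ ρ / 8 := by
        rw [div_le_iff₀ hWr]
        rw [div_le_iff₀ hρ] at hW8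
        nlinarith
      have hhW1 : (1:ℝ) ≤ W := by
        have : (1:ℝ) ≤ 8 / ρ := by rw [le_div_iff₀ hρ]; linarith
        linarith
      have hhW' : h / W ≤ h := div_le_self hh0.le hhW1
      have hwW : (w : ℝ) * (h / W) + h / W ≤ h := by
        have h5 : (w : ℝ) + 1 ≤ W := by exact_mod_cast hw
        have h6 : (w : ℝ) * (h / W) + h / W = (w + 1) * (h / W) := by ring
        rw [h6]
        calc ((w : ℝ) + 1) * (h / W) ≤ W * (h / W) := by gcongr
          _ = h := by field_simp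
      have hw0 : (0 : ℝ) ≤ w * (h / W) := by positivity
      have hAlow : -1 / 2 + h ≤ wA W k w σ := by
        unfold wA
        rw [← hh]
        split_ifs <;> linarith
      have hBup : wB W k w σ ≤ 1 / 2 - h := by
        unfold wB wA
        rw [← hh]
        split_ifs <;> linarith
      have hAB : wB W k w σ - wA W k w σ = h / W := by
        unfold wB
        rw [← hh]
        ring
      have hMh : 1 / 2 ≤ M * h := hMK.trans (by gcongr)
      have key := lq_piece hd hcell hρ hρ1 hδ hK hr hh0 (by linarith) hAlow hBup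
        (by rw [hAB]; exact hhW) (by rw [hAB]; exact hhW') (C₁ := C₁) (θ := θ) (M := M) (q := q) hC₁0
        (hδK.trans (by gcongr)) hθ0 hθ1 hM0 (by
          rw [← hMN, ← hN]
          exact_mod_cast Finset.card_filter_le _ _) hMh hq1 hq2
      refine (eLp_of_int hq0 (by positivity) key).trans (ENNReal.ofReal_le_ofReal (le_of_eq ?_))
      rw [← hγ, Real.mul_rpow hCP.le (by positivity), ← mul_assoc (δ ^ d : ℝ),
        Real.mul_rpow (by positivity) (by positivity), hfin, ← Real.rpow_mul (by positivity)]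
      rw [hA₂]
      have e5 : -γ * (1 / q) = -g := by rw [hg]; ring
      rw [e5]
      ring
    -- sum
    have hle : eLpNorm (Fn (K * δ) b e I (-1 / 2) (1 / 2)) (ENNReal.ofReal q) volume ≤
        eLpNorm (Fn (K * δ) b e I (-1 / 2) (-1 / 2 + (1 / 2) ^ Kx)) (ENNReal.ofReal q) volume +
        eLpNorm (Fn (K * δ) b e I (1 / 2 - (1 / 2) ^ Kx) (1 / 2)) (ENNReal.ofReal q) volume +
        ∑ p ∈ (Finset.Icc 2 Kx ×ˢ Finset.range W) ×ˢ
          (Finset.univ ×ˢ Finset.univ : Finset (Bool × Fin (m + 1))),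
          eLpNorm (Fn (K * δ) b e (I.filter (fun i => c (e i) = p.2.2)) (wA W p.1.1 p.1.2 p.2.1)
            (wB W p.1.1 p.1.2 p.2.1)) (ENNReal.ofReal q) volume := by
      have hq1' : 1 ≤ ENNReal.ofReal q := by
        rw [← ENNReal.ofReal_one]; exact ENNReal.ofReal_le_ofReal hq1.le
      set P := (Finset.Icc 2 Kx ×ˢ Finset.range W) ×ˢ
          (Finset.univ ×ˢ Finset.univ : Finset (Bool × Fin (m + 1))) with hP
      set f₁ := Fn (K * δ) b e I (-1 / 2) (-1 / 2 + (1 / 2) ^ Kx) with hf₁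
      set f₂ := Fn (K * δ) b e I (1 / 2 - (1 / 2) ^ Kx) (1 / 2) with hf₂
      set f₃ : (ℕ × ℕ) × (Bool × Fin (m + 1)) → E (d + 1) → ℝ≥0∞ := fun p =>
        Fn (K * δ) b e (I.filter (fun i => c (e i) = p.2.2)) (wA W p.1.1 p.1.2 p.2.1)
            (wB W p.1.1 p.1.2 p.2.1) with hf₃
      have h1 : eLpNorm (Fn (K * δ) b e I (-1 / 2) (1 / 2)) (ENNReal.ofReal q) volume ≤
          eLpNorm (f₁ + f₂ + ∑ p ∈ P, f₃ p) (ENNReal.ofReal q) volume := by
        apply eLpNorm_mono_enorm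
        intro y
        simp only [enorm_eq_self, Pi.add_apply, Finset.sum_apply]
        exact Fn_le (r := K * δ) (b := b) (e := e) (I := I) c (K := Kx) hW0 y
      have m1 : AEStronglyMeasurable f₁ (volume : Measure (E (d + 1))) :=
        (measurable_Fn _ _ _ _ _ _).aestronglyMeasurable
      have m2 : AEStronglyMeasurable f₂ (volume : Measure (E (d + 1))) :=
        (measurable_Fn _ _ _ _ _ _).aestronglyMeasurable
      have m3 : ∀ p ∈ P, AEStronglyMeasurable (f₃ p) (volume : Measure (E (d + 1))) :=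
        fun p _ => (measurable_Fn _ _ _ _ _ _).aestronglyMeasurable
      refine h1.trans ((eLpNorm_add_le (m1.add m2) (Finset.aestronglyMeasurable_sum _ m3) hq1').trans ?_)
      exact add_le_add (eLpNorm_add_le m1 m2 hq1') (eLpNorm_sum_le m3 hq1')
    refine hle.trans ((add_le_add (add_le_add (htail _ _ (by linarith)) (htail _ _ (by linarith)))
      (Finset.sum_le_sum hpiece)).trans ?_)
    rw [← ENNReal.ofReal_sum_of_nonneg (fun p _ => by positivity), ← ENNReal.ofReal_add (by positivity)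
      (by positivity), ← ENNReal.ofReal_add (by positivity) (Finset.sum_nonneg fun p _ => by positivity)]
    apply ENNReal.ofReal_le_ofReal
    have hsum : ∑ p ∈ (Finset.Icc 2 Kx ×ˢ Finset.range W) ×ˢ
          (Finset.univ ×ˢ Finset.univ : Finset (Bool × Fin (m + 1))),
          A₂ * T * (M * (1 / 2 : ℝ) ^ p.1.1) ^ (-g) ≤ (2 * (m + 1) * W) * (A₂ * T * G) := by
      rw [Finset.sum_product, Finset.sum_product]
      simp only [Finset.sum_const, Finset.card_product, Finset.card_univ, Fintype.card_bool,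
        Fintype.card_fin, Finset.card_range, nsmul_eq_mul]
      rw [← Finset.mul_sum, ← Finset.mul_sum, ← Finset.mul_sum]
      have h5 := geom_scales hg0 hMK
      rw [← hG] at h5
      push_cast
      calc (W : ℝ) * (2 * (m + 1) * (A₂ * T * ∑ k ∈ Finset.Icc 2 Kx, (M * (1 / 2 : ℝ) ^ k) ^ (-g)))
          ≤ (W : ℝ) * (2 * (m + 1) * (A₂ * T * G)) := by gcongr
        _ = _ := by ring
    have : 0 < A₃ * T := by positivity
    nlinarith
  · -- large radius
    have hNle : N ≤ Nm := by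
      rw [hMN, hNm]
      have h5 : M ≤ 8 * K * CT d / ρ := by
        refine hMδ.trans ?_
        rw [div_le_div_iff₀ hδ hρ]
        nlinarith
      gcongr
    have h5 := short_est (b := b) hδ hK0 H.unit (α := -1 / 2) (β := 1 / 2) (D := 1) (M := M) (q := q)
      (A := 1 + K) hM0 (hN.trans hMN) (by norm_num) zero_le_one hq1.le (by nlinarith)
    refine h5.trans (ENNReal.ofReal_le_ofReal ?_)
    have h6 : (nbC d * K ^ d * (1 + K) * (δ ^ d * M ^ (d * q))) ^ (1 / q) =
        (nbC d * K ^ d * (1 + K)) ^ (1 / q) * (M ^ (1 / q)) * T := by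
      have h7 : (M : ℝ) ^ (d * q) = M * M ^ (d * q - 1) := by
        rw [Real.rpow_sub hM0, Real.rpow_one]; field_simp
      rw [h7, Real.mul_rpow (x := nbC d * K ^ d * (1 + K)) (by positivity) (by positivity),
        mul_left_comm (δ ^ d : ℝ), Real.mul_rpow (x := M) (by positivity) (by positivity), hfin]
      ring
    rw [h6]
    have h8 : M ^ (1 / q) ≤ Nm := by
      calc M ^ (1 / q) ≤ M ^ (1 : ℝ) := Real.rpow_le_rpow_of_exponent_le hM1 (by
            rw [div_le_one hq0]; exact hq1.le)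
        _ = M := Real.rpow_one _
        _ ≤ M ^ d := le_self_pow₀ hM1 (by omega)
        _ ≤ Nm := by rw [← hMN]; exact hNle
    have h9 : (nbC d * K ^ d * (1 + K)) ^ (1 / q) * (M ^ (1 / q)) * T ≤ A₃ * T := by
      rw [hA₃]
      gcongr
    have : 0 < 2 * A₁ * T + (2 * (m + 1) * W) * (A₂ * G) * T := by positivity
    nlinarith

end Run7.h523.FT
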