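import Mathlib
import Pool.Agent.Run7.h523.FT.Final

set_option autoImplicit false

/-!
# The tube inequality for front families, all exponents
-/

open Set Metric MeasureTheory
open scoped InnerProductSpace ENNReal

namespace Run7.h523.FT

variable {d : ℕ}

theorem nb_mono' {r r' : ℝ} (h : r ≤ r') (b e : E (d + 1)) (α β : ℝ) : nb r b e α β ⊆ nb r' b e α β :=
  fun _ ⟨s, hs, hy⟩ => ⟨s, hs, hy.trans h⟩

theorem int_of_eLp {F : E (d + 1) → ℝ≥0∞} {q A : ℝ} (hq : 0 < q) (hA : 0 ≤ A)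
    (h : eLpNorm F (ENNReal.ofReal q) volume ≤ ENNReal.ofReal A) :
    ∫⁻ y, F y ^ q ≤ ENNReal.ofReal (A ^ q) := by
  rw [eLpNorm_eq_lintegral_rpow_enorm_toReal (by simpa using hq) ENNReal.ofReal_ne_top,
    ENNReal.toReal_ofReal hq.le] at h
  simp only [enorm_eq_self] at h
  have h1 := ENNReal.rpow_le_rpow h hq.le
  rw [← ENNReal.rpow_mul, one_div_mul_cancel hq.ne', ENNReal.rpow_one,
    ENNReal.ofReal_rpow_of_nonneg hA hq.le] at h1
  exact h1

theorem main_all (hd : 2 ≤ d) {q ρ K : ℝ} (hq : ((d : ℝ) + 1) / d < q) (hρ : 0 < ρ) :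
    ∃ C : ℝ, 0 < C ∧ ∀ (δ : ℝ), 0 < δ → δ ≤ 1 →
      ∀ (ι : Type) (u : E (d + 1)) (b e : ι → E (d + 1)) (I : Finset ι), Front ρ δ u b e I →
      eLpNorm (Fn (K * δ) b e I (-1 / 2) (1 / 2)) (ENNReal.ofReal q) volume ≤
        ENNReal.ofReal (C * (δ ^ (d / q) * (I.card : ℝ) ^ (1 - 1 / (q * d)))) := by
  classical
  have hd0 : (0:ℝ) < d := by exact_mod_cast (by omega : 0 < d)
  have hd2 : (2:ℝ) ≤ d := by exact_mod_cast hd
  have hq1 : 1 < q := by
    have : 1 < ((d : ℝ) + 1) / d := by rw [lt_div_iff₀ hd0]; linarith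
    linarith
  have hq0 : 0 < q := by linarith
  -- reduction of the parameters
  have hred : ∀ {p : ℝ}, ((d : ℝ) + 1) / d < p → p < 2 → ∃ C : ℝ, 0 < C ∧ ∀ (δ : ℝ), 0 < δ → δ ≤ 1 →
      ∀ (ι : Type) (u : E (d + 1)) (b e : ι → E (d + 1)) (I : Finset ι), Front ρ δ u b e I →
      eLpNorm (Fn (K * δ) b e I (-1 / 2) (1 / 2)) (ENNReal.ofReal p) volume ≤
        ENNReal.ofReal (C * (δ ^ (d / p) * (I.card : ℝ) ^ (1 - 1 / (p * d)))) := by
    intro p hp hp2
    obtain ⟨C, hC, h⟩ := main_lt (d := d) (by omega) hp hp2 (ρ := min ρ 1) (K := max K 1)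
      (lt_min hρ one_pos) (min_le_right _ _) (le_max_right _ _)
    refine ⟨C, hC, fun δ hδ hδ1 ι u b e I H => ?_⟩
    refine le_trans ?_ (h δ hδ hδ1 ι u b e I (H.mono_rho (min_le_left _ _)))
    apply eLpNorm_mono_enorm
    intro y
    simp only [enorm_eq_self]
    unfold Fn
    refine Finset.sum_le_sum fun i _ => ?_
    refine indicator_le_indicator_of_subset (nb_mono' ?_ _ _ _ _) (fun _ => zero_le) y
    gcongr
    exact le_max_left _ _
  by_cases hq2 : q < 2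
  · exact hred hq hq2
  push Not at hq2
  have h74 : ((d : ℝ) + 1) / d < 7 / 4 := by
    rw [div_lt_iff₀ hd0]; linarith
  obtain ⟨C, hC, h⟩ := hred h74 (by norm_num)
  refine ⟨(C ^ (7 / 4 : ℝ)) ^ (1 / q), by positivity, fun δ hδ hδ1 ι u b e I H => ?_⟩
  rcases I.eq_empty_or_nonempty with hI | hI
  · have : Fn (K * δ) b e I (-1 / 2) (1 / 2) = 0 := by
      funext y; simp [Fn, hI]
    rw [this, eLpNorm_zero]
    exact zero_le
  obtain ⟨N, hN⟩ : ∃ N : ℝ, (I.card : ℝ) = N := ⟨_, rfl⟩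
  have hN1 : (1:ℝ) ≤ N := by rw [← hN]; exact_mod_cast hI.card_pos
  have hN0 : 0 < N := by linarith
  have h1 := h δ hδ hδ1 ι u b e I H
  rw [hN] at h1 ⊢
  have h2 := int_of_eLp (by norm_num) (by positivity) h1
  have h3 : ∫⁻ y, Fn (K * δ) b e I (-1 / 2) (1 / 2) y ^ q ≤
      ENNReal.ofReal (N ^ (q - 7 / 4) *
        (C * (δ ^ ((d:ℝ) / (7 / 4)) * N ^ (1 - 1 / (7 / 4 * (d:ℝ))))) ^ (7 / 4 : ℝ)) := by
    calc ∫⁻ y, Fn (K * δ) b e I (-1 / 2) (1 / 2) y ^ q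
        ≤ ∫⁻ y, (I.card : ℝ≥0∞) ^ (q - 7 / 4) * Fn (K * δ) b e I (-1 / 2) (1 / 2) y ^ (7 / 4 : ℝ) := by
          apply lintegral_mono
          intro y
          simp only
          calc Fn (K * δ) b e I (-1 / 2) (1 / 2) y ^ q =
              Fn (K * δ) b e I (-1 / 2) (1 / 2) y ^ (q - 7 / 4) *
                Fn (K * δ) b e I (-1 / 2) (1 / 2) y ^ (7 / 4 : ℝ) := by
                rw [← ENNReal.rpow_add_of_nonneg _ _ (by linarith) (by norm_num)]
                congr 1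
                ring
            _ ≤ _ := by
                gcongr
                · linarith
                · exact Fn_le_card _ _ _ _ _ _ _
      _ = (I.card : ℝ≥0∞) ^ (q - 7 / 4) *
            ∫⁻ y, Fn (K * δ) b e I (-1 / 2) (1 / 2) y ^ (7 / 4 : ℝ) :=
          lintegral_const_mul _ ((measurable_Fn _ _ _ _ _ _).pow_const _)
      _ ≤ (I.card : ℝ≥0∞) ^ (q - 7 / 4) * ENNReal.ofReal
        ((C * (δ ^ ((d:ℝ) / (7 / 4)) * N ^ (1 - 1 / (7 / 4 * (d:ℝ))))) ^ (7 / 4 : ℝ)) := by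
          gcongr
      _ = _ := by
          rw [← ENNReal.ofReal_natCast, hN, ENNReal.ofReal_rpow_of_pos hN0,
            ← ENNReal.ofReal_mul (by positivity)]
  refine (eLp_of_int hq0 (by positivity) h3).trans (ENNReal.ofReal_le_ofReal (le_of_eq ?_))
  rw [Real.mul_rpow (x := C) hC.le (by positivity),
    Real.mul_rpow (x := δ ^ ((d:ℝ) / (7 / 4))) (by positivity) (by positivity),
    ← Real.rpow_mul hδ.le, ← Real.rpow_mul hN0.le]
  have e1 : N ^ (q - 7 / 4) * (C ^ (7 / 4 : ℝ) * (δ ^ ((d:ℝ) / (7 / 4) * (7 / 4)) *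
      N ^ ((1 - 1 / (7 / 4 * (d:ℝ))) * (7 / 4)))) =
      C ^ (7 / 4 : ℝ) * (δ ^ (d : ℝ) * N ^ (q - 1 / (d : ℝ))) := by
    have e2 : q - 1 / (d : ℝ) = (q - 7 / 4) + (1 - 1 / (7 / 4 * (d:ℝ))) * (7 / 4) := by
      field_simp
      ring
    have e3 : (d:ℝ) / (7 / 4) * (7 / 4) = d := by ring
    rw [e2, Real.rpow_add hN0, e3]
    ring
  rw [e1, Real.mul_rpow (by positivity) (by positivity), Real.mul_rpow (by positivity) (by positivity),
    ← Real.rpow_mul hδ.le, ← Real.rpow_mul hN0.le]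
  congr 3
  · ring
  · field_simp

end Run7.h523.FT
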